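import Pool.Agent.Q218.PM.Data

/-!
One configuration sees the supports of all subsequential limits.
-/

set_option autoImplicit false

namespace Pool.Agent.Q218.PM

open H974 H342P.Plain H342L H342T MeasureTheory Filter Topology
open H984H (Conf perc)
open scoped ENNReal

theorem often {E : Type*} {f : (n : ℕ) → Finset Edge → E} (hf : ∀ n, 0 < n → OfLargest n (f n))
    {U : Set E} {δ : ℝ} (hδ : 0 < δ)
    (h : ∃ᶠ n : ℕ in atTop, δ ≤ perc.real {ω | f n (Fn n ω) ∈ U}) :
    ∀ᵐ ω ∂perc, ∃ᶠ n in atTop, f n (Fn n ω) ∈ U := by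
  rw [frequently_atTop] at h
  choose g hg1 hg2 using h
  set n : ℕ → ℕ := fun j => Nat.rec (g 1) (fun j x => g (2 ^ j * x)) j with hn
  have hs : ∀ j, n (j + 1) = g (2 ^ j * n j) := fun j => rfl
  have hge : ∀ j, 2 ^ j * n j ≤ n (j + 1) := fun j => by rw [hs]; exact hg1 _
  have h1 : ∀ j, 1 ≤ n j := by
    intro j
    induction j with
    | zero => exact hg1 1
    | succ j ih =>
      refine le_trans ?_ (hge j)
      exact Nat.one_le_iff_ne_zero.2 (by positivity)
  have hP : ∀ j, δ ≤ perc.real {ω | f (n j) (Fn (n j) ω) ∈ U} := by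
    intro j
    cases j with
    | zero => exact hg2 1
    | succ j => rw [hs]; exact hg2 _
  have hmono : Monotone n := by
    apply monotone_nat_of_le_succ
    intro j
    refine le_trans ?_ (hge j)
    exact Nat.le_mul_of_pos_left _ (by positivity)
  have htend : Tendsto n atTop atTop := by
    refine tendsto_atTop_mono (fun j => ?_) tendsto_id
    show j ≤ n j
    cases j with
    | zero => exact Nat.zero_le _
    | succ j =>
      have h2 : j + 1 ≤ 2 ^ j := Nat.lt_two_pow_self
      calc j + 1 ≤ 2 ^ j * 1 := by omega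
        _ ≤ 2 ^ j * n j := Nat.mul_le_mul_left _ (h1 j)
        _ ≤ n (j + 1) := hge j
  have key := io (Q := fun j F => f (n j) F ∈ U) (n := n) h1 hmono (fun j => ?_)
    (fun j F F' hF hF' hs => ?_) ?_
  · filter_upwards [key] with ω hω
    exact htend.frequently hω
  · have h2 : (0 : ℝ) < n j := by exact_mod_cast h1 j
    have h3 : (0 : ℝ) < n (j + 1) := by exact_mod_cast h1 (j + 1)
    have h4 : (2 : ℝ) ^ j * n j ≤ n (j + 1) := by exact_mod_cast hge j
    rw [div_le_iff₀ h3, one_div_pow, one_div_mul_eq_div, le_div_iff₀ (by positivity)]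
    linarith
  · show f (n j) F ∈ U ↔ f (n j) F' ∈ U
    rw [hf (n j) (h1 j) F F' hF hF' hs]
  · have h2 : Tendsto (fun J : ℕ => (J : ℝ) * δ) atTop atTop :=
      tendsto_natCast_atTop_atTop.atTop_mul_const hδ
    refine tendsto_atTop_mono (fun J => ?_) h2
    calc (J : ℝ) * δ = ∑ _j ∈ Finset.range J, δ := by
          rw [Finset.sum_const, Finset.card_range, nsmul_eq_mul]
      _ ≤ _ := Finset.sum_le_sum fun j _ => hP j

/-- Almost surely all points of the supports of all subsequential limits are limit points of the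
sequence of one configuration. -/
theorem acc {E : Type*} [PseudoMetricSpace E] [TopologicalSpace.SeparableSpace E] [Nonempty E]
    [MeasurableSpace E] [BorelSpace E] {f : (n : ℕ) → Finset Edge → E}
    (hf : ∀ n, 0 < n → OfLargest n (f n)) :
    ∀ᵐ ω ∂perc, ∀ (φ : ℕ → ℕ) (μ : ProbabilityMeasure E), Tendsto φ atTop atTop →
      Tendsto (fun i => lawOf (φ i) (f (φ i))) atTop (𝓝 μ) →
      ∀ x : E, (∀ r : ℝ, 0 < r → 0 < (μ : Measure E) (Metric.ball x r)) →
        ∀ r : ℝ, 0 < r → ∃ᶠ n in atTop, dist (f n (Fn n ω)) x < r := by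
  have h1 : ∀ᵐ ω ∂perc, ∀ i k : ℕ,
      (∃ δ : ℝ, 0 < δ ∧ ∃ᶠ n : ℕ in atTop, δ ≤ perc.real {ω | f n (Fn n ω) ∈
        Metric.ball (TopologicalSpace.denseSeq E i) (1 / ((k : ℝ) + 1))}) →
      ∃ᶠ n in atTop, f n (Fn n ω) ∈
        Metric.ball (TopologicalSpace.denseSeq E i) (1 / ((k : ℝ) + 1)) := by
    rw [ae_all_iff]; intro i
    rw [ae_all_iff]; intro k
    by_cases h : ∃ δ : ℝ, 0 < δ ∧ ∃ᶠ n : ℕ in atTop, δ ≤ perc.real {ω | f n (Fn n ω) ∈
        Metric.ball (TopologicalSpace.denseSeq E i) (1 / ((k : ℝ) + 1))}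
    · obtain ⟨δ, hδ, h⟩ := h
      filter_upwards [often hf hδ h] with ω hω _
      exact hω
    · exact Eventually.of_forall fun ω h' => absurd h' h
  filter_upwards [h1] with ω hω φ μ hφ hμ x hx r hr
  obtain ⟨k, hk⟩ := exists_nat_one_div_lt (show 0 < r / 2 by positivity)
  have hk0 : (0 : ℝ) < 1 / ((k : ℝ) + 1) := by positivity
  obtain ⟨i, hi⟩ := (TopologicalSpace.denseRange_denseSeq E).exists_dist_lt x hk0
  set U := Metric.ball (TopologicalSpace.denseSeq E i) (1 / ((k : ℝ) + 1)) with hU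
  have hUpos : 0 < (μ : Measure E) U := by
    have h2 : 0 < 1 / ((k : ℝ) + 1) - dist x (TopologicalSpace.denseSeq E i) := by linarith
    refine lt_of_lt_of_le (hx _ h2) (measure_mono ?_)
    apply Metric.ball_subset_ball'
    linarith
  have hlim := ProbabilityMeasure.le_liminf_measure_open_of_tendsto hμ
    (show IsOpen U from Metric.isOpen_ball)
  set m := (μ : Measure E) U with hm
  have hmtop : m ≠ ∞ := measure_ne_top _ _
  have hhalf : m / 2 < m := ENNReal.half_lt_self hUpos.ne' hmtop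
  have hev := eventually_lt_of_lt_liminf (lt_of_lt_of_le hhalf hlim)
  have hfr : ∃ᶠ n : ℕ in atTop, (m / 2).toReal ≤ perc.real {ω | f n (Fn n ω) ∈ U} := by
    have h3 : ∃ᶠ i : ℕ in atTop, (m / 2).toReal ≤
        perc.real {ω | f (φ i) (Fn (φ i) ω) ∈ U} := by
      refine Eventually.frequently ?_
      filter_upwards [hev] with j hj
      rw [← Fn_law, Measure.map_apply (Fn_meas _ _) Metric.isOpen_ball.measurableSet] at hj
      rw [measureReal_def]
      exact ENNReal.toReal_mono (measure_ne_top _ _) hj.le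
    exact hφ.frequently h3
  have hpos : 0 < (m / 2).toReal := by
    apply ENNReal.toReal_pos
    · exact (ENNReal.half_pos hUpos.ne').ne'
    · exact (hhalf.trans_le le_top).ne
  refine (hω i k ⟨_, hpos, hfr⟩).mono fun n hn => ?_
  have h4 : dist (f n (Fn n ω)) (TopologicalSpace.denseSeq E i) < 1 / ((k : ℝ) + 1) := hn
  calc dist (f n (Fn n ω)) x ≤ dist (f n (Fn n ω)) (TopologicalSpace.denseSeq E i) +
        dist (TopologicalSpace.denseSeq E i) x := dist_triangle _ _ _
    _ < r := by rw [dist_comm _ x]; linarith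

end Pool.Agent.Q218.PM
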