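import Pool.Agent.Q218.DC.Sim
import Pool.Agent.Q218.DC.Slln

/-!
Almost sure logarithmic averages for all bounded continuous functions at the same time, in a
pseudometric space.
-/

set_option autoImplicit false

namespace Pool.Agent.Q218.PM

open MeasureTheory Filter Topology Finset
open Pool.Agent.Q218.DC (uf uf_lip uf_abs approx)

section sim

variable {Ω : Type*} [MeasurableSpace Ω] (P : Measure Ω) [IsProbabilityMeasure P]
variable {E : Type*} [PseudoMetricSpace E] [TopologicalSpace.SeparableSpace E] [Nonempty E]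
  [MeasurableSpace E] [BorelSpace E]

/-- the centred logarithmic average -/
noncomputable def lavp (Y : ℕ → Ω → E) (g : E → ℝ) (N : ℕ) (ω : Ω) : ℝ :=
  (∑ n ∈ Icc 1 N, 1 / (n : ℝ) * (g (Y n ω) - ∫ ω', g (Y n ω') ∂P)) / Real.log N

theorem lavp_smul (Y : ℕ → Ω → E) (g : E → ℝ) (a : ℝ) (N : ℕ) (ω : Ω) :
    lavp P Y (fun x => a * g x) N ω = a * lavp P Y g N ω := by
  unfold lavp
  rw [mul_div_assoc', Finset.mul_sum]
  congr 1
  apply Finset.sum_congr rfl
  intro n _
  rw [integral_const_mul]
  ring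

theorem simp_gen {Y : ℕ → Ω → E} (mY : ∀ n, Measurable (Y n))
    (hL : ∀ g : E → ℝ, (∀ x, |g x| ≤ 1) → (∀ x y, |g x - g y| ≤ dist x y) →
      ∀ᵐ ω ∂P, Tendsto (fun N => lavp P Y g N ω) atTop (𝓝 0))
    (hT : ∀ ε : ℝ, 0 < ε → ∃ K : Set E, IsCompact K ∧ IsClosed K ∧
      ∀ n, 1 ≤ n → P.real {ω | Y n ω ∉ K} ≤ ε) :
    ∀ᵐ ω ∂P, ∀ g : E → ℝ, Continuous g → (∃ G : ℝ, ∀ x, |g x| ≤ G) →
      Tendsto (fun N => lavp P Y g N ω) atTop (𝓝 0) := by
  -- Lipschitz functions
  have hL' : ∀ (g : E → ℝ) (a : ℝ), 0 < a → (∀ x, |g x| ≤ a) → (∀ x y, |g x - g y| ≤ a * dist x y) →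
      ∀ᵐ ω ∂P, Tendsto (fun N => lavp P Y g N ω) atTop (𝓝 0) := by
    intro g a ha h1 h2
    have h3 := hL (fun x => a⁻¹ * g x) (fun x => by
      rw [abs_mul, abs_of_pos (inv_pos.2 ha), inv_mul_le_iff₀ ha, mul_one]
      exact h1 x) (fun x y => by
      rw [← mul_sub, abs_mul, abs_of_pos (inv_pos.2 ha), inv_mul_le_iff₀ ha]
      exact h2 x y)
    filter_upwards [h3] with ω hω
    have h4 := hω.const_mul a
    rw [mul_zero] at h4
    refine h4.congr fun N => ?_
    rw [lavp_smul, ← mul_assoc, mul_inv_cancel₀ ha.ne', one_mul]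
  -- the compact sets
  have hT' : ∀ j : ℕ, ∃ K : Set E, IsCompact K ∧ IsClosed K ∧ K.Nonempty ∧
      ∀ n, 1 ≤ n → P.real {ω | Y n ω ∉ K} ≤ 1 / ((j : ℝ) + 1) := by
    intro j
    obtain ⟨K, hK, hKcl, h⟩ := hT (min (1 / ((j : ℝ) + 1)) (1 / 2)) (by positivity)
    refine ⟨K, hK, hKcl, ?_, fun n hn => (h n hn).trans (min_le_left _ _)⟩
    by_contra hne
    rw [Set.not_nonempty_iff_eq_empty] at hne
    have h1 := (h 1 le_rfl).trans (min_le_right _ _)
    rw [hne] at h1
    have h2 : {ω | Y 1 ω ∉ (∅ : Set E)} = Set.univ := by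
      ext ω
      simp
    rw [h2, probReal_univ] at h1
    norm_num at h1
  choose K hK hKcl hKne hKP using hT'
  set w : ℕ → ℕ → E → ℝ := fun i j x => min 1 ((i : ℝ) * Metric.infDist x (K j)) with hw
  have hwc : ∀ i j, Continuous (w i j) := fun i j =>
    continuous_const.min (continuous_const.mul (Metric.continuous_infDist_pt _))
  have hw0 : ∀ i j x, 0 ≤ w i j x := fun i j x =>
    le_min zero_le_one (mul_nonneg (by positivity) Metric.infDist_nonneg)
  have hw1 : ∀ i j x, w i j x ≤ 1 := fun i j x => min_le_left _ _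
  have hwl : ∀ i j, ∀ x y, |w i j x - w i j y| ≤ (i : ℝ) * dist x y := by
    intro i j x y
    refine (abs_min_sub_min_le_max _ _ _ _).trans (max_le ?_ ?_)
    · rw [sub_self, abs_zero]
      positivity
    · rw [← mul_sub, abs_mul, abs_of_nonneg (by positivity : (0 : ℝ) ≤ i)]
      apply mul_le_mul_of_nonneg_left _ (by positivity)
      rw [abs_sub_le_iff]
      have h1 := Metric.infDist_le_infDist_add_dist (s := K j) (x := x) (y := y)
      have h2 := Metric.infDist_le_infDist_add_dist (s := K j) (x := y) (y := x)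
      rw [dist_comm y x] at h2
      constructor <;> linarith
  -- the almost sure event
  have hA : ∀ᵐ ω ∂P, ∀ (l : List (ℕ × ℚ)) (L G : ℕ),
      Tendsto (fun N => lavp P Y (uf l L G) N ω) atTop (𝓝 0) := by
    rw [ae_all_iff]; intro l
    rw [ae_all_iff]; intro L
    rw [ae_all_iff]; intro G
    refine hL' _ ((L : ℝ) + G + 1) (by positivity) (fun x => ?_) (fun x y => ?_)
    · have := uf_abs l L G x
      have h1 : (0 : ℝ) ≤ L := by positivity
      linarith
    · refine (uf_lip l L G x y).trans ?_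
      apply mul_le_mul_of_nonneg_right _ dist_nonneg
      have h1 : (0 : ℝ) ≤ G := by positivity
      linarith
  have hB : ∀ᵐ ω ∂P, ∀ i j : ℕ, Tendsto (fun N => lavp P Y (w i j) N ω) atTop (𝓝 0) := by
    rw [ae_all_iff]; intro i
    rw [ae_all_iff]; intro j
    refine hL' _ ((i : ℝ) + 1) (by positivity) (fun x => ?_) (fun x y => ?_)
    · rw [abs_of_nonneg (hw0 i j x)]
      have := hw1 i j x
      have h1 : (0 : ℝ) ≤ i := by positivity
      linarith
    · refine (hwl i j x y).trans ?_
      apply mul_le_mul_of_nonneg_right _ dist_nonneg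
      linarith
  filter_upwards [hA, hB] with ω hωA hωB
  rintro g hg ⟨G0, hG0⟩
  obtain ⟨G, hG⟩ := exists_nat_ge G0
  have hgG : ∀ x, |g x| ≤ G := fun x => (hG0 x).trans hG
  rw [Metric.tendsto_atTop]
  intro ε hε
  set η : ℝ := ε / (16 * ((G : ℝ) + 1)) with hη
  have hη0 : 0 < η := by positivity
  obtain ⟨j, hj⟩ := exists_nat_one_div_lt hη0
  obtain ⟨l, L, δ, hδ, happ⟩ := approx (hK j) hg hgG (ε := ε / 16) (by positivity)
  obtain ⟨i, hi⟩ := exists_nat_ge (1 / δ)
  have hwi : ∀ x, |g x - uf l L G x| ≤ ε / 16 + 2 * G * w i j x := by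
    intro x
    by_cases hx : ∃ y ∈ K j, dist x y < δ
    · have := happ x hx
      have h1 := hw0 i j x
      have h2 : (0 : ℝ) ≤ 2 * G * w i j x := by positivity
      linarith
    · have h1 : δ ≤ Metric.infDist x (K j) := by
        by_contra hcon
        exact hx ((Metric.infDist_lt_iff (hKne j)).1 (not_le.1 hcon))
      have h2 : w i j x = 1 := by
        show min 1 ((i : ℝ) * Metric.infDist x (K j)) = 1
        apply min_eq_left
        rw [div_le_iff₀ hδ] at hi
        have : (i : ℝ) * δ ≤ i * Metric.infDist x (K j) := mul_le_mul_of_nonneg_left h1 (by positivity)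
        linarith
      rw [h2, mul_one]
      have h3 := hgG x
      have h4 := uf_abs l L G x
      have h5 := abs_sub (g x) (uf l L G x)
      linarith
  have hEw : ∀ n, 1 ≤ n → ∫ ω', w i j (Y n ω') ∂P ≤ η := by
    intro n hn
    have h1 := hKP j n hn
    have mset : MeasurableSet {ω' | Y n ω' ∉ K j} := (mY n) ((hKcl j).measurableSet.compl)
    have h2 : ∫ ω', w i j (Y n ω') ∂P ≤ ∫ ω', ({ω' | Y n ω' ∉ K j}).indicator (fun _ => (1 : ℝ)) ω' ∂P := by
      apply integral_mono
      · refine Integrable.of_bound (((hwc i j).measurable.comp (mY n)).aestronglyMeasurable) 1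
          (Eventually.of_forall fun ω' => ?_)
        rw [Real.norm_eq_abs, abs_of_nonneg (hw0 _ _ _)]
        exact hw1 _ _ _
      · exact (integrable_const _).indicator mset
      · intro ω'
        by_cases h : Y n ω' ∉ K j
        · rw [Set.indicator_of_mem (show ω' ∈ {ω' | Y n ω' ∉ K j} from h)]
          exact hw1 _ _ _
        · rw [Set.indicator_of_notMem (show ω' ∉ {ω' | Y n ω' ∉ K j} from h)]
          rw [not_not] at h
          show min 1 ((i : ℝ) * Metric.infDist (Y n ω') (K j)) ≤ 0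
          rw [Metric.infDist_zero_of_mem h, mul_zero]
          exact min_le_right _ _
    rw [integral_indicator_const _ mset] at h2
    simp only [smul_eq_mul, mul_one] at h2
    linarith
  -- the difference
  have ev1 := (hωA l L G).eventually (Metric.ball_mem_nhds 0 (show 0 < ε / 8 by positivity))
  have ev2 := (hωB i j).eventually (Metric.ball_mem_nhds 0 hη0)
  have hfin : ∀ᶠ N : ℕ in atTop, dist (lavp P Y g N ω) 0 < ε := by
    filter_upwards [ev1, ev2, eventually_ge_atTop 3] with N h1 h2 hN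
    rw [Real.dist_eq, sub_zero] at h1 h2
    rw [Real.dist_eq, sub_zero]
    have hN3 : (3 : ℝ) ≤ N := by exact_mod_cast hN
    have hlog1 : 1 ≤ Real.log N := by
      rw [Real.le_log_iff_exp_le (by linarith)]
      exact (Real.exp_one_lt_d9.le.trans (by norm_num)).trans hN3
    have hlog0 : 0 < Real.log N := by linarith
    have iu : ∀ (u : E → ℝ), Continuous u → ∀ b : ℝ, (∀ x, |u x| ≤ b) → ∀ n,
        Integrable (fun ω' => u (Y n ω')) P := by
      intro u hu b hb n
      exact Integrable.of_bound ((hu.measurable.comp (mY n)).aestronglyMeasurable) b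
        (Eventually.of_forall fun ω' => by rw [Real.norm_eq_abs]; exact hb _)
    have huc : Continuous (uf l L G : E → ℝ) := by
      have : LipschitzWith (L : NNReal) (uf l L G : E → ℝ) := LipschitzWith.of_dist_le_mul fun x y => by
        rw [Real.dist_eq]
        exact uf_lip l L G x y
      exact this.continuous
    have hdiff : |lavp P Y g N ω - lavp P Y (uf l L G) N ω| ≤
        (∑ n ∈ Icc 1 N, 1 / (n : ℝ) * (ε / 8 + 2 * G * (w i j (Y n ω) - ∫ ω', w i j (Y n ω') ∂P) +
          4 * G * η)) / Real.log N := by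
      unfold lavp
      rw [← sub_div, abs_div, abs_of_pos hlog0, ← Finset.sum_sub_distrib]
      apply div_le_div_of_nonneg_right _ hlog0.le
      refine (Finset.abs_sum_le_sum_abs _ _).trans ?_
      apply Finset.sum_le_sum
      intro n hn
      have hn1 := (Finset.mem_Icc.1 hn).1
      rw [← mul_sub, abs_mul, abs_of_nonneg (by positivity : (0 : ℝ) ≤ 1 / (n : ℝ))]
      apply mul_le_mul_of_nonneg_left _ (by positivity)
      have e1 := hwi (Y n ω)
      have i1 := iu g hg G hgG n
      have i2 := iu _ huc G (uf_abs l L G) n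
      have i3 := iu _ (hwc i j) 1 (fun x => by
        rw [abs_of_nonneg (hw0 _ _ _)]; exact hw1 _ _ _) n
      have e2 : |∫ ω', g (Y n ω') ∂P - ∫ ω', uf l L G (Y n ω') ∂P| ≤
          ε / 16 + 2 * G * ∫ ω', w i j (Y n ω') ∂P := by
        rw [← integral_sub i1 i2]
        refine (abs_integral_le_integral_abs).trans ?_
        calc ∫ ω', |g (Y n ω') - uf l L G (Y n ω')| ∂P ≤
            ∫ ω', (ε / 16 + 2 * G * w i j (Y n ω')) ∂P := by
              apply integral_mono (i1.sub i2).abs ((integrable_const _).add (i3.const_mul _))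
              exact fun ω' => hwi _
          _ = ε / 16 + 2 * G * ∫ ω', w i j (Y n ω') ∂P := by
              rw [integral_add (integrable_const _) (i3.const_mul _), integral_const_mul]
              simp
      have e3 := hEw n hn1
      have e4 : (g (Y n ω) - ∫ ω', g (Y n ω') ∂P) - (uf l L G (Y n ω) - ∫ ω', uf l L G (Y n ω') ∂P) =
          (g (Y n ω) - uf l L G (Y n ω)) - (∫ ω', g (Y n ω') ∂P - ∫ ω', uf l L G (Y n ω') ∂P) := by
        ring
      rw [e4]
      refine (abs_sub _ _).trans ?_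
      have e5 : 2 * (G : ℝ) * ∫ ω', w i j (Y n ω') ∂P ≤ 2 * G * η :=
        mul_le_mul_of_nonneg_left e3 (by positivity)
      have e6 : 2 * (G : ℝ) * (w i j (Y n ω) - ∫ ω', w i j (Y n ω') ∂P) =
          2 * G * w i j (Y n ω) - 2 * G * ∫ ω', w i j (Y n ω') ∂P := by ring
      rw [e6]
      linarith
    have hsum : (∑ n ∈ Icc 1 N, 1 / (n : ℝ) * (ε / 8 + 2 * G * (w i j (Y n ω) -
        ∫ ω', w i j (Y n ω') ∂P) + 4 * G * η)) / Real.log N =
        (ε / 8 + 4 * G * η) * ((∑ n ∈ Icc 1 N, 1 / (n : ℝ)) / Real.log N) +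
        2 * G * lavp P Y (w i j) N ω := by
      unfold lavp
      rw [← mul_div_assoc (ε / 8 + 4 * G * η) _ (Real.log N),
        ← mul_div_assoc (2 * (G : ℝ)) _ (Real.log N), ← add_div, Finset.mul_sum, Finset.mul_sum,
        ← Finset.sum_add_distrib]
      congr 1
      apply Finset.sum_congr rfl
      intro n _
      ring
    have hH : (∑ n ∈ Icc 1 N, 1 / (n : ℝ)) / Real.log N ≤ 2 := by
      rw [div_le_iff₀ hlog0]
      have h := harmonic_le_one_add_log N
      rw [harmonic_eq_sum_Icc] at h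
      push_cast at h
      simp only [one_div]
      linarith
    have hGη : (G : ℝ) * η ≤ ε / 16 := by
      rw [hη, mul_div_assoc', div_le_div_iff₀ (by positivity) (by norm_num)]
      have : (0 : ℝ) ≤ G := by positivity
      nlinarith
    have hG0' : (0 : ℝ) ≤ G := by positivity
    have hwlav : 2 * (G : ℝ) * lavp P Y (w i j) N ω ≤ ε / 8 := by
      have h3 : lavp P Y (w i j) N ω ≤ η := (le_abs_self _).trans h2.le
      have h4 : 2 * (G : ℝ) * lavp P Y (w i j) N ω ≤ 2 * G * η :=
        mul_le_mul_of_nonneg_left h3 (by positivity)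
      linarith
    rw [hsum] at hdiff
    have h5 : (ε / 8 + 4 * G * η) * ((∑ n ∈ Icc 1 N, 1 / (n : ℝ)) / Real.log N) ≤
        (ε / 8 + 4 * G * η) * 2 := mul_le_mul_of_nonneg_left hH (by positivity)
    have h6 : |lavp P Y g N ω| ≤ |lavp P Y g N ω - lavp P Y (uf l L G) N ω| +
        |lavp P Y (uf l L G) N ω| := by
      have := abs_add_le (lavp P Y g N ω - lavp P Y (uf l L G) N ω) (lavp P Y (uf l L G) N ω)
      rwa [sub_add_cancel] at this
    nlinarith
  exact eventually_atTop.1 hfin

end sim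

end Pool.Agent.Q218.PM
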