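import Pool.Agent.Q218.PM.Cov
import Pool.Agent.Q218.PM.Sim

/-!
Almost sure limit theorem for functions of the largest clusters.
-/

set_option autoImplicit false

namespace Pool.Agent.Q218.PM

open H974 H342P.Plain H342L MeasureTheory Filter Topology
open H984H (Conf perc)
open Pool.Agent.Q218.DC (log_avg)

theorem aslt_gen {E : Type*} [PseudoMetricSpace E] [TopologicalSpace.SeparableSpace E] [Nonempty E]
    [MeasurableSpace E] [BorelSpace E] {f : (n : ℕ) → Finset Edge → E}
    (hf : ∀ n, 0 < n → OfLargest n (f n))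
    (hT : ∀ ε : ℝ, 0 < ε → ∃ K : Set E, IsCompact K ∧ IsClosed K ∧
      ∀ n : ℕ, 0 < n → (lawOf n (f n) : Measure E) Kᶜ ≤ ENNReal.ofReal ε) :
    ∀ᵐ ω ∂perc, ∀ g : E → ℝ, Continuous g → (∃ G : ℝ, ∀ x, |g x| ≤ G) →
      Tendsto (fun N => lavp perc (fun n ω => f n (Fn n ω)) g N ω) atTop (𝓝 0) := by
  obtain ⟨C, c, hC, hc, hc1, hcov⟩ := cov_g
  refine simp_gen perc (fun n => Fn_meas n (f n)) ?_ ?_
  · intro g hg _
    refine log_avg perc (X := fun n ω => g (f n (Fn n ω)) - ∫ ω', g (f n (Fn n ω')) ∂perc)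
      (fun n => (Fn_meas n (fun F => g (f n F))).sub_const _) (K := 2) ?_ hC.le hc hc1
      (fun m n hm hmn => hcov (fun n F => g (f n F))
        (fun n hn F F' h1 h2 h3 => by
          show g (f n F) = g (f n F')
          rw [hf n hn F F' h1 h2 h3]) (fun n F => hg _) m n hm hmn)
    intro n ω
    have h1 := hg (f n (Fn n ω))
    have h2 : |∫ ω', g (f n (Fn n ω')) ∂perc| ≤ 1 := by
      refine (abs_integral_le_integral_abs).trans ?_
      have iG : Integrable (fun ω => |g (f n (Fn n ω))|) perc :=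
        Integrable.of_bound ((Fn_meas n (fun F => g (f n F))).abs.aestronglyMeasurable) 1
          (Eventually.of_forall fun ω => by rw [Real.norm_eq_abs, abs_abs]; exact hg _)
      calc ∫ ω', |g (f n (Fn n ω'))| ∂perc ≤ ∫ _ω', (1 : ℝ) ∂perc :=
            integral_mono iG (integrable_const _) fun ω' => hg _
        _ = 1 := by simp
    have h3 := abs_sub (g (f n (Fn n ω))) (∫ ω', g (f n (Fn n ω')) ∂perc)
    linarith
  · intro ε hε
    obtain ⟨K, h1, h2, h3⟩ := hT ε hε
    refine ⟨K, h1, h2, fun n hn => ?_⟩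
    have h4 := h3 n hn
    rw [← Fn_law, Measure.map_apply (Fn_meas n (f n)) h2.isOpen_compl.measurableSet] at h4
    rw [measureReal_def]
    exact ENNReal.toReal_le_of_le_ofReal hε.le h4

end Pool.Agent.Q218.PM
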