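import Pool.Agent.Q218.PM.Defs

/-!
The largest clusters of a box do not depend on the edges of a much smaller box at the corner.
-/

set_option autoImplicit false

namespace Pool.Agent.Q218.PM

open H974 H342P.Plain

/-- an open path from the small box to the outside of the middle one -/
def Arm (m M : ℕ) (F : Finset Edge) : Prop :=
  ∃ x ∈ box m, ∃ y, y ∉ box M ∧ Reach (↑F : Set Edg) x y

/-- the configurations agree off the small box -/
def Off (m : ℕ) (F F' : Finset Edge) : Prop := ∀ e, e ∉ edges m → (e ∈ F ↔ e ∈ F')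

theorem Off.symm {m : ℕ} {F F' : Finset Edge} (h : Off m F F') : Off m F' F :=
  fun e he => (h e he).symm

theorem mem_box {n : ℕ} {v : ℤ × ℤ} :
    v ∈ box n ↔ (0 ≤ v.1 ∧ v.1 ≤ n) ∧ (0 ≤ v.2 ∧ v.2 ≤ n) := by
  unfold box
  rw [Finset.mem_product, Finset.mem_Icc, Finset.mem_Icc]

theorem mem_edges {n : ℕ} {e : Edge} (h : e ∈ edges n) : fst e ∈ box n ∧ snd e ∈ box n := by
  unfold edges at h
  exact (Finset.mem_filter.1 h).2

theorem adj_ends {F : Set Edg} {u v : Vtx} (h : Adj F u v) :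
    ∃ e ∈ F, (fst e = u ∧ snd e = v) ∨ (fst e = v ∧ snd e = u) := by
  obtain ⟨e, he, h⟩ := h
  refine ⟨e, he, ?_⟩
  rw [fst_eq, snd_eq]
  exact h

theorem adj_of {F : Set Edg} {u v : Vtx} {e : Edg} (he : e ∈ F)
    (h : (fst e = u ∧ snd e = v) ∨ (fst e = v ∧ snd e = u)) : Adj F u v := by
  refine ⟨e, he, ?_⟩
  rw [fst_eq, snd_eq] at h
  exact h

theorem adj_box {n : ℕ} {F : Finset Edge} (hF : F ⊆ edges n) {u v : Vtx}
    (h : Adj (↑F : Set Edg) u v) : u ∈ box n ∧ v ∈ box n := by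
  obtain ⟨e, he, h⟩ := adj_ends h
  have h1 := mem_edges (hF (Finset.mem_coe.1 he))
  rcases h with ⟨rfl, rfl⟩ | ⟨rfl, rfl⟩
  · exact h1
  · exact ⟨h1.2, h1.1⟩

theorem reach_box {n : ℕ} {F : Finset Edge} (hF : F ⊆ edges n) {u v : Vtx} (hu : u ∈ box n)
    (h : Reach (↑F : Set Edg) u v) : v ∈ box n := by
  induction h with
  | refl => exact hu
  | tail _ hs _ => exact (adj_box hF hs).2

theorem arm_of {m M : ℕ} {F F' : Finset Edge} (hoff : Off m F F') (h : Arm m M F') : Arm m M F := by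
  obtain ⟨x, hx, y, hy, hr⟩ := h
  have key : ∀ z, Reach (↑F' : Set Edg) x z → ∃ x' ∈ box m, Reach (↑F : Set Edg) x' z := by
    intro z hz
    induction hz with
    | refl => exact ⟨x, hx, Reach.refl _ _⟩
    | @tail b c _ hs ih =>
      obtain ⟨e, he, hc⟩ := adj_ends hs
      by_cases hem : e ∈ edges m
      · have h1 := mem_edges hem
        rcases hc with ⟨_, rfl⟩ | ⟨rfl, _⟩
        · exact ⟨_, h1.2, Reach.refl _ _⟩
        · exact ⟨_, h1.1, Reach.refl _ _⟩
      · obtain ⟨x', hx', hr'⟩ := ih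
        exact ⟨x', hx', hr'.tail (adj_of (Finset.mem_coe.2 ((hoff e hem).2 (Finset.mem_coe.1 he))) hc)⟩
  obtain ⟨x', hx', hr'⟩ := key y hr
  exact ⟨x', hx', y, hy, hr'⟩

theorem arm_iff {m M : ℕ} {F F' : Finset Edge} (hoff : Off m F F') : Arm m M F ↔ Arm m M F' :=
  ⟨arm_of hoff.symm, arm_of hoff⟩

/-- A vertex of the cluster of a vertex outside the middle box is not in the small box. -/
theorem not_box {m M : ℕ} {F : Finset Edge} (hA : ¬ Arm m M F) {v w u : Vtx} (hw : w ∉ box M)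
    (hvw : Reach (↑F : Set Edg) v w) (hvu : Reach (↑F : Set Edg) v u) : u ∉ box m :=
  fun hu => hA ⟨u, hu, w, hw, hvu.symm.trans hvw⟩

theorem reach_off {m M : ℕ} {F F' : Finset Edge} (hoff : Off m F F') (hA : ¬ Arm m M F)
    {v w : Vtx} (hw : w ∉ box M) (hvw : Reach (↑F : Set Edg) v w) {u : Vtx}
    (hvu : Reach (↑F : Set Edg) v u) : Reach (↑F' : Set Edg) v u := by
  induction hvu with
  | refl => exact Reach.refl _ _
  | @tail b c hb hs ih =>
    obtain ⟨e, he, hc⟩ := adj_ends hs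
    have hb' := not_box hA hw hvw hb
    have hem : e ∉ edges m := by
      intro hem
      have h1 := mem_edges hem
      rcases hc with ⟨rfl, _⟩ | ⟨_, rfl⟩
      · exact hb' h1.1
      · exact hb' h1.2
    exact ih.tail (adj_of (Finset.mem_coe.2 ((hoff e hem).1 (Finset.mem_coe.1 he))) hc)

theorem reach_iff {m M : ℕ} {F F' : Finset Edge} (hoff : Off m F F') (hA : ¬ Arm m M F)
    {v w : Vtx} (hw : w ∉ box M) (hvw : Reach (↑F : Set Edg) v w) {u : Vtx} :
    Reach (↑F : Set Edg) v u ↔ Reach (↑F' : Set Edg) v u :=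
  ⟨reach_off hoff hA hw hvw, reach_off hoff.symm (fun h => hA ((arm_iff hoff).2 h)) hw
    (reach_off hoff hA hw hvw hvw)⟩

theorem cluster_eq {m M : ℕ} {F F' : Finset Edge} (hoff : Off m F F') (hA : ¬ Arm m M F)
    {v w : Vtx} (hw : w ∉ box M) (hvw : Reach (↑F : Set Edg) v w) : cluster F v = cluster F' v := by
  ext u
  rw [mem_cluster, mem_cluster]
  exact reach_iff hoff hA hw hvw

theorem clusterEdges_eq {m M : ℕ} {F F' : Finset Edge} (hoff : Off m F F') (hA : ¬ Arm m M F)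
    {v w : Vtx} (hw : w ∉ box M) (hvw : Reach (↑F : Set Edg) v w) :
    clusterEdges F v = clusterEdges F' v := by
  have hc := cluster_eq hoff hA hw hvw
  have h1 : ∀ e, fst e ∈ cluster F v → e ∉ edges m := by
    intro e he hem
    rw [mem_cluster] at he
    exact not_box hA hw hvw he (mem_edges hem).1
  ext e
  show (e ∈ F ∧ fst e ∈ cluster F v) ↔ (e ∈ F' ∧ fst e ∈ cluster F' v)
  rw [← hc]
  constructor
  · rintro ⟨h2, h3⟩
    exact ⟨(hoff e (h1 e h3)).1 h2, h3⟩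
  · rintro ⟨h2, h3⟩
    exact ⟨(hoff e (h1 e h3)).2 h2, h3⟩

theorem sq_box {M : ℕ} {a b : Vtx} (ha : a ∈ box M) (hb : b ∈ box M) :
    sqDist a b ≤ 2 * (M : ℤ) ^ 2 := by
  rw [mem_box] at ha hb
  unfold sqDist
  have h1 : (a.1 - b.1) ^ 2 ≤ (M : ℤ) ^ 2 := by
    apply sq_le_sq'
    · omega
    · omega
  have h2 : (a.2 - b.2) ^ 2 ≤ (M : ℤ) ^ 2 := by
    apply sq_le_sq'
    · omega
    · omega
  linarith

/-- one half of the statement -/
theorem largest_of {m M n : ℕ} {F F' : Finset Edge} (hF : F ⊆ edges n) (hF' : F' ⊆ edges n)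
    (hoff : Off m F F') (hA : ¬ Arm m M F) {c d : Vtx} (hc : c ∈ box n) (hd : d ∈ box n)
    (hcd : Reach (↑F : Set Edg) c d) (hbig : 2 * (M : ℤ) ^ 2 < sqDist c d) {v : Vtx}
    (hv : Largest n F v) : Largest n F' v ∧ clusterEdges F v = clusterEdges F' v := by
  obtain ⟨hvb, a, ha, b, hb, hmax⟩ := hv
  have hA' : ¬ Arm m M F' := fun h => hA ((arm_iff hoff).2 h)
  have h1 : 2 * (M : ℤ) ^ 2 < sqDist a b :=
    lt_of_lt_of_le hbig (hmax c hc d hd ((mem_cluster F c d).2 hcd))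
  obtain ⟨w, hw, hvw⟩ : ∃ w, w ∉ box M ∧ Reach (↑F : Set Edg) v w := by
    by_cases h2 : a ∈ box M
    · by_cases h3 : b ∈ box M
      · exact absurd (sq_box h2 h3) (by omega)
      · exact ⟨b, h3, (mem_cluster F v b).1 hb⟩
    · exact ⟨a, h2, (mem_cluster F v a).1 ha⟩
  have hcl := cluster_eq hoff hA hw hvw
  refine ⟨⟨hvb, a, hcl ▸ ha, b, hcl ▸ hb, ?_⟩, clusterEdges_eq hoff hA hw hvw⟩
  intro c' hc' d' hd' hcd'
  have hr' := (mem_cluster F' c' d').1 hcd'
  by_cases h2 : c' ∈ box M ∧ d' ∈ box M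
  · exact (sq_box h2.1 h2.2).trans h1.le
  · have h3 : ∃ w', w' ∉ box M ∧ Reach (↑F' : Set Edg) c' w' := by
      by_cases h4 : c' ∈ box M
      · exact ⟨d', fun h5 => h2 ⟨h4, h5⟩, hr'⟩
      · exact ⟨c', h4, Reach.refl _ _⟩
    obtain ⟨w', hw', hcw'⟩ := h3
    have h5 := reach_off hoff.symm hA' hw' hcw' hr'
    exact hmax c' hc' d' hd' ((mem_cluster F c' d').2 h5)

theorem same_of {m M n : ℕ} {F F' : Finset Edge} (hF : F ⊆ edges n) (hF' : F' ⊆ edges n)
    (hoff : Off m F F') (hA : ¬ Arm m M F) {c d : Vtx} (hc : c ∈ box n) (hd : d ∈ box n)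
    (hcd : Reach (↑F : Set Edg) c d) (hbig : 2 * (M : ℤ) ^ 2 < sqDist c d) : Same n F F' := by
  have hA' : ¬ Arm m M F' := fun h => hA ((arm_iff hoff).2 h)
  have hcd' : Reach (↑F' : Set Edg) c d := by
    by_cases h4 : c ∈ box M
    · by_cases h5 : d ∈ box M
      · exact absurd (sq_box h4 h5) (by omega)
      · exact reach_off hoff hA h5 hcd hcd
    · exact reach_off hoff hA h4 (Reach.refl _ _) hcd
  intro v
  refine ⟨⟨fun h => (largest_of hF hF' hoff hA hc hd hcd hbig h).1, fun h =>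
    (largest_of hF' hF hoff.symm hA' hc hd hcd' hbig h).1⟩, fun h =>
    (largest_of hF hF' hoff hA hc hd hcd hbig h).2⟩

end Pool.Agent.Q218.PM
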