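import Pool.Agent.Q218.PM.Prob

/-!
Decorrelation of scales for the largest clusters.
-/

set_option autoImplicit false

namespace Pool.Agent.Q218.PM

open H974 H342P.Plain MeasureTheory Filter Topology
open H984H (Conf perc)
open Pool.Agent.Q218.DC (mix mix_in mix_out mix_meas int_mix)

theorem prod_fst_le {s : Set Conf} : (perc.prod perc).real {p | p.1 ∈ s} ≤ perc.real s := by
  have h1 : (perc.prod perc) {p | p.1 ∈ s} ≤ perc s := by
    have h2 : {p : Conf × Conf | p.1 ∈ s} ⊆ (toMeasurable perc s) ×ˢ Set.univ := by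
      intro p hp
      exact ⟨subset_toMeasurable _ _ hp, Set.mem_univ _⟩
    refine (measure_mono h2).trans ?_
    rw [Measure.prod_prod, measure_univ, mul_one, measure_toMeasurable]
  exact ENNReal.toReal_mono (measure_ne_top _ _) h1

theorem int_abs_le {Ω : Type*} [MeasurableSpace Ω] (μ : Measure Ω) [IsProbabilityMeasure μ]
    {u : Ω → ℝ} (mu : Measurable u) {K : ℝ} (hK0 : 0 ≤ K) (hK : ∀ ω, |u ω| ≤ K)
    {s : Set Ω} (hs : ∀ ω, ω ∉ s → u ω = 0) : ∫ ω, |u ω| ∂μ ≤ K * μ.real s := by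
  set s' : Set Ω := {ω | 0 < |u ω|} with hs'
  have ms' : MeasurableSet s' := measurableSet_lt measurable_const mu.abs
  have hsub : s' ⊆ s := by
    intro ω hω
    by_contra hcon
    have h1 : (0 : ℝ) < |u ω| := hω
    rw [hs ω hcon, abs_zero] at h1
    exact lt_irrefl _ h1
  have hint : Integrable (fun ω => |u ω|) μ :=
    Integrable.of_bound mu.abs.aestronglyMeasurable K (Eventually.of_forall fun ω => by
      rw [Real.norm_eq_abs, abs_abs]; exact hK ω)
  have hle : ∀ ω, |u ω| ≤ s'.indicator (fun _ => K) ω := by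
    intro ω
    by_cases h : ω ∈ s'
    · rw [Set.indicator_of_mem h]
      exact hK ω
    · rw [Set.indicator_of_notMem h]
      exact not_lt.1 h
  calc ∫ ω, |u ω| ∂μ ≤ ∫ ω, s'.indicator (fun _ => K) ω ∂μ := by
        apply integral_mono hint _ hle
        exact (integrable_const K).indicator ms'
    _ = K * μ.real s' := by
        rw [integral_indicator_const _ ms']
        simp [mul_comm]
    _ ≤ K * μ.real s := mul_le_mul_of_nonneg_left (measureReal_mono hsub (measure_ne_top _ _)) hK0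

/-- **Decorrelation of scales.** -/
theorem dec : ∃ C c : ℝ, 0 < C ∧ 0 < c ∧ ∀ m n : ℕ, 1 ≤ m → m ≤ n →
    ∀ h : Finset Edge → ℝ, (∀ F, |h F| ≤ 1) →
    ∀ Φ : Finset Edge → ℝ, OfLargest n Φ → (∀ F, |Φ F| ≤ 1) →
    |∫ ω, h (Fn m ω) * Φ (Fn n ω) ∂perc -
      (∫ ω, h (Fn m ω) ∂perc) * ∫ ω, Φ (Fn n ω) ∂perc| ≤ C * ((m : ℝ) / n) ^ c := by
  obtain ⟨C, c, hC, hc, key⟩ := change_prob
  refine ⟨2 * C, c, by positivity, hc, ?_⟩
  intro m n hm hmn h hb Φ hΦ hΦb
  obtain ⟨B, hB, hsame⟩ := key m n hm hmn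
  set D : Set Edg := {e | e ∈ edges m} with hD
  set F : Conf → ℝ := fun ω => h (Fn m ω) with hF
  set G : Conf → ℝ := fun ω => Φ (Fn n ω) with hG
  have mF : Measurable F := Fn_meas m h
  have mG : Measurable G := Fn_meas n Φ
  have hFd : ∀ ω ω' : Conf, (∀ i ∈ D, ω i = ω' i) → F ω = F ω' := by
    intro ω ω' hw
    show h _ = h _
    rw [Fn_congr (fun e he => hw e he)]
  have hle1 : ∀ a b : ℝ, |a| ≤ 1 → |b| ≤ 1 → |a * b| ≤ 2 := by
    intro a b ha hb
    rw [abs_mul]
    have := mul_le_mul ha hb (abs_nonneg b) zero_le_one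
    linarith
  have e1 := int_mix (fun _ : Edg => (PMF.uniformOfFintype Bool).toMeasure) D mF mG hFd
    (fun ω => hb (Fn m ω)) (fun ω => hΦb (Fn n ω))
  have e2 : ∫ ω, F ω * G ω ∂perc = ∫ p, F p.1 * G p.1 ∂(perc.prod perc) := by
    have h1 : (perc.prod perc).map Prod.fst = perc := by
      rw [Measure.map_fst_prod]
      simp
    have h2 := integral_map (μ := perc.prod perc) (φ := Prod.fst) measurable_fst.aemeasurable
      (f := fun ω : Conf => F ω * G ω) (mF.mul mG).aestronglyMeasurable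
    rw [h1] at h2
    exact h2
  have hbd2 : ∀ u : Conf × Conf → ℝ, Measurable u → (∀ ω, |u ω| ≤ 2) →
      Integrable u (perc.prod perc) := by
    intro u mu hu
    exact Integrable.of_bound mu.aestronglyMeasurable 2 (Eventually.of_forall fun ω => by
      rw [Real.norm_eq_abs]; exact hu ω)
  have mG1 : Measurable (fun p : Conf × Conf => G p.1) := mG.comp measurable_fst
  have mG2 : Measurable (fun p : Conf × Conf => G (mix D p.1 p.2)) := mG.comp (mix_meas _)
  have mF1 : Measurable (fun p : Conf × Conf => F p.1) := mF.comp measurable_fst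
  have e3 : (∫ ω, F ω ∂perc) * ∫ ω, G ω ∂perc =
      ∫ p, F p.1 * G (mix D p.1 p.2) ∂(perc.prod perc) := e1.symm
  have j1 : Integrable (fun p : Conf × Conf => F p.1 * G p.1) (perc.prod perc) :=
    hbd2 _ (mF1.mul mG1) fun p => hle1 _ _ (hb _) (hΦb _)
  have j2 : Integrable (fun p : Conf × Conf => F p.1 * G (mix D p.1 p.2))
      (perc.prod perc) := hbd2 _ (mF1.mul mG2) fun p => hle1 _ _ (hb _) (hΦb _)
  have hdif : ∀ p : Conf × Conf, |G p.1 - G (mix D p.1 p.2)| ≤ 2 := by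
    intro p
    have h2 := hΦb (Fn n p.1)
    have h3 := hΦb (Fn n (mix D p.1 p.2))
    have h4 := abs_sub (G p.1) (G (mix D p.1 p.2))
    exact h4.trans (by linarith)
  have d3 : |∫ ω, F ω * G ω ∂perc - (∫ ω, F ω ∂perc) * ∫ ω, G ω ∂perc| ≤
      ∫ p, |G p.1 - G (mix D p.1 p.2)| ∂(perc.prod perc) := by
    rw [e2, e3, ← integral_sub j1 j2]
    refine (abs_integral_le_integral_abs).trans ?_
    apply integral_mono (hbd2 _ ((mF1.mul mG1).sub (mF1.mul mG2)).abs fun ω => ?_)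
      (hbd2 _ (mG1.sub mG2).abs fun ω => ?_)
    · intro p
      show |F p.1 * G p.1 - F p.1 * G (mix D p.1 p.2)| ≤ |G p.1 - G (mix D p.1 p.2)|
      rw [← mul_sub, abs_mul]
      exact mul_le_of_le_one_left (abs_nonneg _) (hb _)
    · show |(|F ω.1 * G ω.1 - F ω.1 * G (mix D ω.1 ω.2)|)| ≤ 2
      rw [abs_abs, ← mul_sub, abs_mul]
      exact (mul_le_of_le_one_left (abs_nonneg _) (hb _)).trans (hdif ω)
    · show |(|G ω.1 - G (mix D ω.1 ω.2)|)| ≤ 2
      rw [abs_abs]
      exact hdif ω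
  refine d3.trans ?_
  have h5 := int_abs_le (perc.prod perc) (mG1.sub mG2) (K := 2) (by norm_num) hdif
    (s := {p : Conf × Conf | p.1 ∈ B}) (fun p hp => by
      have h6 : Same n (Fn n p.1) (Fn n (mix D p.1 p.2)) := hsame _ _ (fun e he => by
        rw [mix_out (show e ∉ D from he)]) hp
      show Φ (Fn n p.1) - Φ (Fn n (mix D p.1 p.2)) = 0
      rw [hΦ _ _ (Fn_sub n _) (Fn_sub n _) h6, sub_self])
  refine h5.trans ?_
  have h7 := prod_fst_le (s := B)
  calc 2 * (perc.prod perc).real {p | p.1 ∈ B} ≤ 2 * (C * ((m : ℝ) / n) ^ c) :=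
        mul_le_mul_of_nonneg_left (h7.trans hB) (by norm_num)
    _ = 2 * C * ((m : ℝ) / n) ^ c := by ring

/-- The covariances of a bounded function of the largest clusters at two scales. -/
theorem cov_g : ∃ C c : ℝ, 0 < C ∧ 0 < c ∧ c ≤ 1 ∧ ∀ Φ : ℕ → Finset Edge → ℝ,
    (∀ n, 0 < n → OfLargest n (Φ n)) → (∀ n F, |Φ n F| ≤ 1) → ∀ m n : ℕ, 1 ≤ m → m ≤ n →
    |∫ ω, (Φ m (Fn m ω) - ∫ ω', Φ m (Fn m ω') ∂perc) *
      (Φ n (Fn n ω) - ∫ ω', Φ n (Fn n ω') ∂perc) ∂perc| ≤ C * ((m : ℝ) / n) ^ c := by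
  obtain ⟨C, c, hC, hc, key⟩ := dec
  refine ⟨C, min c 1, hC, by positivity, min_le_right _ _, ?_⟩
  intro Φ hΦ hb m n hm hmn
  have h1 := key m n hm hmn (Φ m) (hb m) (Φ n) (hΦ n (hm.trans hmn)) (hb n)
  have iG : ∀ k, Integrable (fun ω => Φ k (Fn k ω)) perc := fun k =>
    Integrable.of_bound ((Fn_meas k (Φ k)).aestronglyMeasurable) 1
      (Eventually.of_forall fun ω => by rw [Real.norm_eq_abs]; exact hb _ _)
  have iGG : Integrable (fun ω => Φ m (Fn m ω) * Φ n (Fn n ω)) perc :=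
    Integrable.of_bound (((Fn_meas m (Φ m)).mul (Fn_meas n (Φ n))).aestronglyMeasurable) (1 * 1)
      (Eventually.of_forall fun ω => by
        rw [Real.norm_eq_abs, abs_mul]
        exact mul_le_mul (hb _ _) (hb _ _) (abs_nonneg _) zero_le_one)
  set a := ∫ ω', Φ m (Fn m ω') ∂perc with ha
  set b := ∫ ω', Φ n (Fn n ω') ∂perc with hb'
  have h2 : ∫ ω, (Φ m (Fn m ω) - a) * (Φ n (Fn n ω) - b) ∂perc =
      ∫ ω, Φ m (Fn m ω) * Φ n (Fn n ω) ∂perc - a * b := by
    have e1 : ∀ ω, (Φ m (Fn m ω) - a) * (Φ n (Fn n ω) - b) =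
        (Φ m (Fn m ω) * Φ n (Fn n ω) - b * Φ m (Fn m ω)) - (a * Φ n (Fn n ω) - a * b) := by
      intro ω; ring
    have j1 : Integrable (fun ω => Φ m (Fn m ω) * Φ n (Fn n ω) - b * Φ m (Fn m ω)) perc :=
      iGG.sub ((iG m).const_mul b)
    have j2 : Integrable (fun ω => a * Φ n (Fn n ω) - a * b) perc :=
      ((iG n).const_mul a).sub (integrable_const _)
    rw [integral_congr_ae (Eventually.of_forall e1), integral_sub j1 j2,
      integral_sub iGG ((iG m).const_mul b), integral_sub ((iG n).const_mul a) (integrable_const _),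
      integral_const_mul, integral_const_mul]
    simp only [integral_const, probReal_univ, smul_eq_mul, one_mul]
    rw [← ha, ← hb']
    ring
  rw [h2]
  refine h1.trans ?_
  apply mul_le_mul_of_nonneg_left _ hC.le
  have hm0 : (0 : ℝ) < m := by exact_mod_cast hm
  have hn0 : (0 : ℝ) < n := by exact_mod_cast hm.trans hmn
  apply Real.rpow_le_rpow_of_exponent_ge (by positivity) _ (min_le_left _ _)
  rw [div_le_one hn0]
  exact_mod_cast hmn

end Pool.Agent.Q218.PM
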