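import Pool.Agent.Q218.PM.Lil
import Pool.Agent.Q218.PM.Aslt
import Pool.Agent.H342R3.Tig.Fin
import Pool.Agent.H342R3.Tig.ARZ
import Pool.Agent.H342R3.Tig.CNT
import Pool.Agent.H342R3.Tig.GRD
import Pool.Agent.H342R3.Tig.POL
import Pool.Agent.H342R3.Tig.ORB
import Pool.Agent.H342R3.Tig.RNG
import Pool.Agent.H342R3.Tig.SML

/-!
Joint tightness of the traced perimeter and its length; logarithmic averages.
-/

set_option autoImplicit false

namespace Pool.Agent.Q218.PM

open H974 H342P.Plain H342L H342T MeasureTheory Filter Topology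
open H984H (Conf perc)
open Pool.Agent.Q218.DC (harm_le)

/-- Logarithmic averages of a convergent sequence. -/
theorem logAvg_tendsto {a : ℕ → ℝ} {l : ℝ} (h : Tendsto a atTop (𝓝 l)) :
    Tendsto (logAvg a) atTop (𝓝 l) := by
  -- the average of the constant `1`
  have h1 : Tendsto (logAvg fun _ => 1) atTop (𝓝 1) := by
    have hlog := Real.tendsto_log_atTop.comp (tendsto_natCast_atTop_atTop (R := ℝ))
    have hup : Tendsto (fun N : ℕ => 1 / Real.log N + 1) atTop (𝓝 (0 + 1)) :=
      (tendsto_const_nhds.div_atTop hlog).add_const 1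
    rw [zero_add] at hup
    refine tendsto_of_tendsto_of_tendsto_of_le_of_le' tendsto_const_nhds hup ?_ ?_
    · filter_upwards [eventually_ge_atTop 3] with N hN
      have hN3 : (3 : ℝ) ≤ N := by exact_mod_cast hN
      have hl : 0 < Real.log N := Real.log_pos (by linarith)
      unfold logAvg
      rw [le_div_iff₀ hl, one_mul]
      have h2 := log_add_one_le_harmonic N
      rw [harmonic_eq_sum_Icc] at h2
      push_cast at h2
      have h3 : Real.log N ≤ Real.log ((N : ℝ) + 1) := Real.log_le_log (by linarith) (by linarith)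
      simp only [one_div, mul_one]
      linarith
    · filter_upwards [eventually_ge_atTop 3] with N hN
      have hN3 : (3 : ℝ) ≤ N := by exact_mod_cast hN
      have hl : 0 < Real.log N := Real.log_pos (by linarith)
      unfold logAvg
      rw [div_le_iff₀ hl, add_mul, one_mul, one_div_mul_cancel hl.ne']
      have h2 := harm_le (N := N) (by omega)
      simpa using h2
  have hlog := Real.tendsto_log_atTop.comp (tendsto_natCast_atTop_atTop (R := ℝ))
  rw [Metric.tendsto_atTop]
  intro ε hε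
  obtain ⟨N0, hN0⟩ := Metric.tendsto_atTop.1 h (ε / 4) (by positivity)
  -- the first terms
  set A : ℝ := ∑ n ∈ Finset.Icc 1 N0, 1 / (n : ℝ) * |a n - l| with hA
  have hA0 : 0 ≤ A := Finset.sum_nonneg fun n _ => by positivity
  have e1 : ∀ᶠ N : ℕ in atTop, A / Real.log N < ε / 4 :=
    (tendsto_const_nhds.div_atTop hlog).eventually (gt_mem_nhds (by positivity))
  have e2 : ∀ᶠ N : ℕ in atTop, logAvg (fun _ => 1) N < 2 := h1.eventually (gt_mem_nhds (by norm_num))
  have e3 : ∀ᶠ N : ℕ in atTop, |l| * |logAvg (fun _ => 1) N - 1| < ε / 4 := by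
    have h5 : Tendsto (fun N => |l| * |logAvg (fun _ => 1) N - 1|) atTop (𝓝 (|l| * |(1 : ℝ) - 1|)) :=
      ((h1.sub_const 1).abs).const_mul _
    rw [sub_self, abs_zero, mul_zero] at h5
    exact h5.eventually (gt_mem_nhds (by positivity))
  apply eventually_atTop.1
  filter_upwards [e1, e2, e3, eventually_ge_atTop 3, eventually_ge_atTop N0] with N g1 g2 g3 hN hNN
  have hN3 : (3 : ℝ) ≤ N := by exact_mod_cast hN
  have hl : 0 < Real.log N := Real.log_pos (by linarith)
  rw [Real.dist_eq]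
  have key : |logAvg a N - l * logAvg (fun _ => 1) N| ≤
      A / Real.log N + ε / 4 * logAvg (fun _ => 1) N := by
    have e4 : logAvg a N - l * logAvg (fun _ => 1) N =
        (∑ n ∈ Finset.Icc 1 N, 1 / (n : ℝ) * (a n - l)) / Real.log N := by
      unfold logAvg
      rw [← mul_div_assoc l _ (Real.log N), ← sub_div, Finset.mul_sum, ← Finset.sum_sub_distrib]
      congr 1
      apply Finset.sum_congr rfl
      intro n _
      ring
    have e5 : A / Real.log N + ε / 4 * logAvg (fun _ => 1) N =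
        (A + ∑ n ∈ Finset.Icc 1 N, 1 / (n : ℝ) * (ε / 4)) / Real.log N := by
      unfold logAvg
      rw [← mul_div_assoc (ε / 4) _ (Real.log N), ← add_div, Finset.mul_sum]
      congr 2
      apply Finset.sum_congr rfl
      intro n _
      ring
    rw [e4, e5, abs_div, abs_of_pos hl]
    apply div_le_div_of_nonneg_right _ hl.le
    refine (Finset.abs_sum_le_sum_abs _ _).trans ?_
    have e6 : ∀ n ∈ Finset.Icc 1 N, |1 / (n : ℝ) * (a n - l)| ≤
        (if n ≤ N0 then 1 / (n : ℝ) * |a n - l| else 0) + 1 / (n : ℝ) * (ε / 4) := by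
      intro n _
      rw [abs_mul, abs_of_nonneg (by positivity : (0 : ℝ) ≤ 1 / (n : ℝ))]
      split_ifs with hn
      · have : (0 : ℝ) ≤ 1 / (n : ℝ) * (ε / 4) := by positivity
        linarith
      · rw [zero_add]
        apply mul_le_mul_of_nonneg_left _ (by positivity)
        have := hN0 n (by omega)
        rw [Real.dist_eq] at this
        exact this.le
    refine (Finset.sum_le_sum e6).trans ?_
    rw [Finset.sum_add_distrib, ← Finset.sum_filter]
    apply add_le_add _ le_rfl
    apply Finset.sum_le_sum_of_subset_of_nonneg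
    · intro n hn
      rw [Finset.mem_filter, Finset.mem_Icc] at hn
      rw [Finset.mem_Icc]
      omega
    · intro n _ _
      positivity
  have e7 : logAvg a N - l = (logAvg a N - l * logAvg (fun _ => 1) N) +
      l * (logAvg (fun _ => 1) N - 1) := by ring
  rw [e7]
  refine lt_of_le_of_lt (abs_add_le _ _) ?_
  rw [abs_mul l]
  have e8 : ε / 4 * logAvg (fun _ => 1) N ≤ ε / 4 * 2 := mul_le_mul_of_nonneg_left g2.le (by positivity)
  linarith

instance : TopologicalSpace.SeparableSpace Curve := by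
  have hE : Continuous (fun f : C(unitInterval, ℂ) => (⟨f⟩ : Curve)) := by
    apply LipschitzWith.continuous (K := 1)
    apply LipschitzWith.of_dist_le_mul
    intro f g
    rw [NNReal.coe_one, one_mul]
    refine (cdist_le f g (OrderIso.refl _)).trans (le_of_eq ?_)
    have : rep g (OrderIso.refl _) = g := by ext t; rfl
    rw [this]
  have hs : Function.Surjective (fun f : C(unitInterval, ℂ) => (⟨f⟩ : Curve)) := fun c => ⟨c.path, rfl⟩
  exact hs.denseRange.separableSpace hE

theorem data_of {sel : (n : ℕ) → Finset Edge → ℤ × ℤ} {γ : (n : ℕ) → Finset Edge → Curve}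
    (h1 : ∀ n, 0 < n → OfLargest n (sel n)) (h3 : ∀ n, 0 < n → OfLargest n (γ n))
    (h2 : ∀ n F, 0 < n → F ⊆ edges n → Largest n F (sel n F)) (n : ℕ) (hn : 0 < n) :
    OfLargest n (data sel γ n) := by
  intro F F' hF hF' hs
  unfold data
  rw [h3 n hn F F' hF hF' hs, ← h1 n hn F F' hF hF' hs,
    perimeter_eq ((hs (sel n F)).2 (h2 n F hn hF))]

theorem data_tight {sel : (n : ℕ) → Finset Edge → ℤ × ℤ} {γ : (n : ℕ) → Finset Edge → Curve}
    (h2 : ∀ n F, 0 < n → F ⊆ edges n → Largest n F (sel n F))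
    (h4 : ∀ n F, 0 < n → F ⊆ edges n → IsTrace n F (sel n F) (γ n F)) {ε : ℝ} (hε : 0 < ε) :
    ∃ K : Set (Curve × ℝ), IsCompact K ∧ IsClosed K ∧
      ∀ n : ℕ, 0 < n → (lawOf n (data sel γ n) : Measure (Curve × ℝ)) Kᶜ ≤ ENNReal.ofReal ε := by
  obtain ⟨c, C, hc, hC, h⟩ := tail_in
  obtain ⟨K, hK1, hK2, hK3⟩ := tight_K (t_RNG t_ORB t_POL) (t_GRD t_POL) (t_SML t_POL) t_CNT t_ARZ
    h2 h4 (ε := ε / 2) (by positivity)
  have hR : ∃ R : ℝ, 0 ≤ R ∧ C * Real.exp (-(c * R ^ 8)) ≤ ε / 2 := by
    have h5 : Tendsto (fun R : ℝ => C * Real.exp (-(c * R ^ 8))) atTop (𝓝 (C * 0)) := by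
      apply Tendsto.const_mul
      exact Real.tendsto_exp_neg_atTop_nhds_zero.comp
        ((tendsto_pow_atTop (by norm_num)).const_mul_atTop hc)
    rw [mul_zero] at h5
    obtain ⟨R, hR1, hR2⟩ := ((h5.eventually (gt_mem_nhds (show 0 < ε / 2 by positivity))).and
      (eventually_ge_atTop 0)).exists
    exact ⟨R, hR2, hR1.le⟩
  obtain ⟨R, hR0, hR⟩ := hR
  refine ⟨K ×ˢ Set.Icc 0 R, hK1.prod isCompact_Icc, hK2.prod isClosed_Icc, fun n hn => ?_⟩
  have hKm : MeasurableSet (K ×ˢ Set.Icc (0 : ℝ) R)ᶜ :=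
    (hK2.prod isClosed_Icc).isOpen_compl.measurableSet
  have h6 := hK3 n hn
  rw [← Fn_law, Measure.map_apply (Fn_meas n _) hK2.isOpen_compl.measurableSet] at h6
  rw [← Fn_law, Measure.map_apply (Fn_meas n _) hKm]
  have h7 : perc {ω | ∃ v, Largest n (Fn n ω) v ∧
      R * (n : ℝ) ^ (7/4 : ℝ) ≤ (perimeter (Fn n ω) v : ℝ)} ≤ ENNReal.ofReal (ε / 2) := by
    have h8 := (h n hn).1 R hR0
    rw [← Fn_real, measureReal_def] at h8
    exact (ENNReal.le_ofReal_iff_toReal_le (measure_ne_top _ _) (by positivity)).2 (h8.trans hR)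
  calc perc ((fun ω => data sel γ n (Fn n ω)) ⁻¹' (K ×ˢ Set.Icc (0 : ℝ) R)ᶜ)
      ≤ perc (((fun ω => γ n (Fn n ω)) ⁻¹' Kᶜ) ∪ {ω | ∃ v, Largest n (Fn n ω) v ∧
          R * (n : ℝ) ^ (7/4 : ℝ) ≤ (perimeter (Fn n ω) v : ℝ)}) := by
        apply measure_mono
        intro ω hω
        by_cases h8 : γ n (Fn n ω) ∈ K
        · right
          refine ⟨sel n (Fn n ω), h2 _ _ hn (Fn_sub _ _), ?_⟩
          by_contra hcon
          push Not at hcon
          apply hω
          refine ⟨h8, ?_, ?_⟩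
          · show 0 ≤ (perimeter (Fn n ω) (sel n (Fn n ω)) : ℝ) / (n : ℝ) ^ (7/4 : ℝ)
            positivity
          · show (perimeter (Fn n ω) (sel n (Fn n ω)) : ℝ) / (n : ℝ) ^ (7/4 : ℝ) ≤ R
            have hn0 : (0 : ℝ) < n := by exact_mod_cast hn
            rw [div_le_iff₀ (by positivity)]
            exact hcon.le
        · exact Or.inl h8
    _ ≤ _ := measure_union_le _ _
    _ ≤ ENNReal.ofReal (ε / 2) + ENNReal.ofReal (ε / 2) := add_le_add h6 h7
    _ = ENNReal.ofReal ε := by
        rw [← ENNReal.ofReal_add (by positivity) (by positivity), add_halves]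

end Pool.Agent.Q218.PM
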