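import Pool.Agent.H984R4.HN.HPDefs
import Pool.Agent.H342R3.Lim.Law
import Pool.Agent.H342R3.Tig.Defs

/-!
Critical bond percolation: all boxes `Λ_n = {0, …, n}²` in one configuration of the edges of `ℤ²`.
Definitions.
-/

set_option autoImplicit false

namespace Pool.Agent.Q218.PM

open H342P.Plain H342L H342T
open H984H (Conf)

open Classical in
/-- The open edges of the box `Λ_n` in the configuration `ω` of all edges of `ℤ²`. -/
noncomputable def Fn (n : ℕ) (ω : Conf) : Finset Edge := (edges n).filter (fun e => ω e = true)

/-- The two configurations have the same clusters of largest diameter. -/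
def Same (n : ℕ) (F F' : Finset Edge) : Prop :=
  ∀ v, (Largest n F v ↔ Largest n F' v) ∧ (Largest n F v → clusterEdges F v = clusterEdges F' v)

/-- `Φ` is a function of the clusters of largest diameter of the box `Λ_n`. -/
def OfLargest {X : Type*} (n : ℕ) (Φ : Finset Edge → X) : Prop :=
  ∀ F F', F ⊆ edges n → F' ⊆ edges n → Same n F F' → Φ F = Φ F'

/-- A choice `sel n F` of (a vertex of) a cluster of largest diameter of the box `Λ_n` and of the
closed lattice path `γ n F` which traces its outer boundary (scaled by `1 / n`), where the choices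
(between several clusters of largest diameter, and of the starting point of the path) depend only on
the clusters of largest diameter. -/
def Rule (sel : (n : ℕ) → Finset Edge → ℤ × ℤ) (γ : (n : ℕ) → Finset Edge → Curve) : Prop :=
  ∀ n, 0 < n → OfLargest n (sel n) ∧ OfLargest n (γ n) ∧
    ∀ F, F ⊆ edges n → Largest n F (sel n F) ∧ IsTrace n F (sel n F) (γ n F)

/-- The traced outer perimeter of the chosen cluster, and its number of steps divided by
`n ^ (7/4)`. -/
noncomputable def data (sel : (n : ℕ) → Finset Edge → ℤ × ℤ) (γ : (n : ℕ) → Finset Edge → Curve)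
    (n : ℕ) (F : Finset Edge) : Curve × ℝ :=
  (γ n F, (perimeter F (sel n F) : ℝ) / (n : ℝ) ^ (7/4 : ℝ))

/-- The logarithmic average of `a n` over `1 ≤ n ≤ N`. -/
noncomputable def logAvg (a : ℕ → ℝ) (N : ℕ) : ℝ :=
  (∑ n ∈ Finset.Icc 1 N, 1 / (n : ℝ) * a n) / Real.log N

end Pool.Agent.Q218.PM
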