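import Pool.Agent.Q218.PM.Cov

/-!
Events of the largest clusters of rapidly growing boxes happen infinitely often if their
probabilities are not summable.
-/

set_option autoImplicit false

namespace Pool.Agent.Q218.PM

open H974 H342P.Plain MeasureTheory Filter Topology
open H984H (Conf perc)

theorem Fn_filter {m n : ℕ} (h : m ≤ n) (ω : Conf) :
    Fn m ω = (Fn n ω).filter (fun e => e ∈ edges m) := by
  ext e
  rw [Finset.mem_filter, mem_Fn, mem_Fn]
  constructor
  · rintro ⟨h1, h2⟩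
    exact ⟨⟨edges_mono h h1, h2⟩, h1⟩
  · rintro ⟨⟨_, h2⟩, h3⟩
    exact ⟨h3, h2⟩

theorem rec_bound {q P r : ℕ → ℝ} {a : ℕ} (h0 : q a ≤ 1) (hP : ∀ i, 0 ≤ P i) (hP1 : ∀ i, P i ≤ 1)
    (hr : ∀ i, 0 ≤ r i)
    (h : ∀ J, a ≤ J → q (J + 1) ≤ q J * (1 - P J) + r J) (k : ℕ) :
    q (a + k) ≤ Real.exp (-∑ i ∈ Finset.range k, P (a + i)) +
      ∑ i ∈ Finset.range k, r (a + i) := by
  induction k with
  | zero => simpa using h0
  | succ k ih =>
    have h1 := h (a + k) (Nat.le_add_right _ _)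
    have h2 : 0 ≤ 1 - P (a + k) := by linarith [hP1 (a + k)]
    have h3 : 1 - P (a + k) ≤ Real.exp (-P (a + k)) := by
      have := Real.add_one_le_exp (-P (a + k))
      linarith
    have h4 : q (a + k) * (1 - P (a + k)) ≤
        (Real.exp (-∑ i ∈ Finset.range k, P (a + i)) + ∑ i ∈ Finset.range k, r (a + i)) *
          (1 - P (a + k)) := mul_le_mul_of_nonneg_right ih h2
    have h5 : 0 ≤ ∑ i ∈ Finset.range k, r (a + i) := Finset.sum_nonneg fun i _ => hr _
    have h6 : (∑ i ∈ Finset.range k, r (a + i)) * (1 - P (a + k)) ≤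
        ∑ i ∈ Finset.range k, r (a + i) :=
      mul_le_of_le_one_right h5 (by linarith [hP (a + k)])
    have h7 : Real.exp (-∑ i ∈ Finset.range k, P (a + i)) * (1 - P (a + k)) ≤
        Real.exp (-∑ i ∈ Finset.range (k + 1), P (a + i)) := by
      rw [Finset.sum_range_succ, neg_add, Real.exp_add]
      exact mul_le_mul_of_nonneg_left h3 (Real.exp_pos _).le
    have h8 : ∑ i ∈ Finset.range (k + 1), r (a + i) =
        ∑ i ∈ Finset.range k, r (a + i) + r (a + k) := Finset.sum_range_succ _ _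
    rw [h8]
    show q (a + k + 1) ≤ _
    rw [add_mul] at h4
    linarith

theorem io {Q : ℕ → Finset Edge → Prop} {n : ℕ → ℕ} (hn : ∀ j, 1 ≤ n j) (hmono : Monotone n)
    (hgr : ∀ j, (n j : ℝ) / n (j + 1) ≤ (1/2) ^ j)
    (hQ : ∀ j F F', F ⊆ edges (n j) → F' ⊆ edges (n j) → Same (n j) F F' → (Q j F ↔ Q j F'))
    (hdiv : Tendsto (fun J => ∑ j ∈ Finset.range J, perc.real {ω | Q j (Fn (n j) ω)}) atTop atTop) :
    ∀ᵐ ω ∂perc, ∃ᶠ j in atTop, Q j (Fn (n j) ω) := by
  classical
  obtain ⟨C, c, hC, hc, key⟩ := dec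
  set P : ℕ → ℝ := fun j => perc.real {ω | Q j (Fn (n j) ω)} with hPdef
  have hP0 : ∀ j, 0 ≤ P j := fun j => measureReal_nonneg
  have hP1 : ∀ j, P j ≤ 1 := fun j => measureReal_le_one
  set ρ : ℝ := (1/2 : ℝ) ^ c with hρ
  have hρ0 : 0 < ρ := by positivity
  have hρ1 : ρ < 1 := Real.rpow_lt_one (by norm_num) (by norm_num) hc
  -- no event between `a` and `J`
  set N : ℕ → ℕ → Set Conf := fun a J => {ω | ∀ i, a ≤ i → i < J → ¬ Q i (Fn (n i) ω)} with hN
  have hNm : ∀ a J, MeasurableSet (N a J) := by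
    intro a J
    have : N a J = ⋂ i : ℕ, {ω | a ≤ i → i < J → ¬ Q i (Fn (n i) ω)} := by
      ext ω
      simp [hN]
    rw [this]
    exact MeasurableSet.iInter fun i =>
      (Fn_meas (n i) (fun F => a ≤ i → i < J → ¬ Q i F)) (measurableSet_singleton True) |>.congr (by
        ext ω
        simp)
  have hrec : ∀ a J, a + 1 ≤ J → perc.real (N a (J + 1)) ≤
      perc.real (N a J) * (1 - P J) + C * ρ ^ (J - 1) := by
    intro a J hJ
    set m := n (J - 1) with hm
    have hmn : m ≤ n J := hmono (by omega)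
    set h : Finset Edge → ℝ := fun F => if ∀ i, a ≤ i → i < J →
      ¬ Q i (F.filter (fun e => e ∈ edges (n i))) then 1 else 0 with hh
    set Φ : Finset Edge → ℝ := fun F => if Q J F then 0 else 1 with hΦ
    have e1 : ∀ ω, h (Fn m ω) = (N a J).indicator (fun _ => (1 : ℝ)) ω := by
      intro ω
      have e2 : (∀ i, a ≤ i → i < J → ¬ Q i ((Fn m ω).filter (fun e => e ∈ edges (n i)))) ↔
          ω ∈ N a J := by
        show _ ↔ ∀ i, a ≤ i → i < J → ¬ Q i (Fn (n i) ω)
        refine forall_congr' fun i => forall_congr' fun _ => forall_congr' fun hi => ?_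
        rw [← Fn_filter (hmono (show i ≤ J - 1 by omega))]
      rw [hh]
      by_cases h2 : ω ∈ N a J
      · rw [Set.indicator_of_mem h2]
        exact if_pos (e2.2 h2)
      · rw [Set.indicator_of_notMem h2]
        exact if_neg fun h3 => h2 (e2.1 h3)
    have e3 : ∀ ω, h (Fn m ω) * Φ (Fn (n J) ω) =
        (N a (J + 1)).indicator (fun _ => (1 : ℝ)) ω := by
      intro ω
      rw [e1]
      have e4 : ω ∈ N a (J + 1) ↔ ω ∈ N a J ∧ ¬ Q J (Fn (n J) ω) := by
        show (∀ i, a ≤ i → i < J + 1 → ¬ Q i (Fn (n i) ω)) ↔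
          (∀ i, a ≤ i → i < J → ¬ Q i (Fn (n i) ω)) ∧ ¬ Q J (Fn (n J) ω)
        constructor
        · intro h2
          exact ⟨fun i h3 h4 => h2 i h3 (by omega), h2 J (by omega) (by omega)⟩
        · rintro ⟨h2, h3⟩ i h4 h5
          rcases Nat.lt_succ_iff_lt_or_eq.1 h5 with h6 | h6
          · exact h2 i h4 h6
          · rw [h6]; exact h3
      by_cases h2 : ω ∈ N a J
      · rw [Set.indicator_of_mem h2, one_mul]
        by_cases h3 : Q J (Fn (n J) ω)
        · rw [Set.indicator_of_notMem (fun h4 => (e4.1 h4).2 h3)]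
          exact if_pos h3
        · rw [Set.indicator_of_mem (e4.2 ⟨h2, h3⟩)]
          exact if_neg h3
      · rw [Set.indicator_of_notMem h2, Set.indicator_of_notMem (fun h4 => h2 (e4.1 h4).1), zero_mul]
    have hk := key m (n J) (hn _) hmn h (fun F => by
      show |(if _ then (1 : ℝ) else 0)| ≤ 1
      split_ifs <;> simp) Φ (fun F F' h1 h2 h3 => by
        show (if Q J F then (0 : ℝ) else 1) = if Q J F' then 0 else 1
        rw [if_congr (hQ J F F' h1 h2 h3) rfl rfl]) (fun F => by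
      show |(if _ then (0 : ℝ) else 1)| ≤ 1
      split_ifs <;> simp)
    have i1 : ∫ ω, h (Fn m ω) ∂perc = perc.real (N a J) := by
      rw [integral_congr_ae (Eventually.of_forall e1), integral_indicator_const _ (hNm a J)]
      simp
    have i2 : ∫ ω, h (Fn m ω) * Φ (Fn (n J) ω) ∂perc = perc.real (N a (J + 1)) := by
      rw [integral_congr_ae (Eventually.of_forall e3), integral_indicator_const _ (hNm a (J + 1))]
      simp
    have mQ : MeasurableSet {ω | Q J (Fn (n J) ω)} :=
      (Fn_meas (n J) (fun F => Q J F)) (measurableSet_singleton True) |>.congr (by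
        ext ω
        simp)
    have i3 : ∫ ω, Φ (Fn (n J) ω) ∂perc = 1 - P J := by
      have e5 : ∀ ω, Φ (Fn (n J) ω) =
          ({ω | Q J (Fn (n J) ω)}ᶜ).indicator (fun _ => (1 : ℝ)) ω := by
        intro ω
        by_cases h3 : Q J (Fn (n J) ω)
        · rw [Set.indicator_of_notMem
            (show ω ∉ {ω | Q J (Fn (n J) ω)}ᶜ from fun h4 => h4 h3)]
          exact if_pos h3
        · rw [Set.indicator_of_mem (show ω ∈ {ω | Q J (Fn (n J) ω)}ᶜ from h3)]
          exact if_neg h3
      rw [integral_congr_ae (Eventually.of_forall e5), integral_indicator_const _ mQ.compl,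
        probReal_compl_eq_one_sub mQ]
      simp [hPdef]
    rw [i1, i2, i3] at hk
    have hk2 := (abs_le.1 hk).2
    have h5 : ((m : ℝ) / n J) ^ c ≤ ρ ^ (J - 1) := by
      have h6 := hgr (J - 1)
      rw [show J - 1 + 1 = J by omega] at h6
      have hm0 : (0 : ℝ) ≤ (m : ℝ) / n J := by positivity
      calc ((m : ℝ) / n J) ^ c ≤ ((1/2 : ℝ) ^ (J - 1)) ^ c := Real.rpow_le_rpow hm0 h6 hc.le
        _ = ρ ^ (J - 1) := by
          rw [hρ, ← Real.rpow_natCast, ← Real.rpow_mul (by norm_num), ← Real.rpow_natCast,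
            ← Real.rpow_mul (by norm_num), mul_comm]
    have h7 := mul_le_mul_of_nonneg_left h5 hC.le
    linarith
  -- no event after `a`
  have hE : ∀ a : ℕ, perc.real {ω | ∀ i, a ≤ i → ¬ Q i (Fn (n i) ω)} ≤ C * ρ ^ a / (1 - ρ) := by
    intro a
    have h1 : ∀ k : ℕ, perc.real {ω | ∀ i, a ≤ i → ¬ Q i (Fn (n i) ω)} ≤
        Real.exp (-∑ i ∈ Finset.range k, P (a + 1 + i)) + C * ρ ^ a / (1 - ρ) := by
      intro k
      have h2 : perc.real {ω | ∀ i, a ≤ i → ¬ Q i (Fn (n i) ω)} ≤ perc.real (N a (a + 1 + k)) :=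
        measureReal_mono (fun ω hω i h3 _ => hω i h3) (measure_ne_top _ _)
      have h3 := rec_bound (q := fun J => perc.real (N a J)) (P := P)
        (r := fun J => C * ρ ^ (J - 1)) (a := a + 1) measureReal_le_one hP0 hP1
        (fun i => by positivity) (fun J hJ => hrec a J hJ) k
      have h4 : ∑ i ∈ Finset.range k, C * ρ ^ (a + 1 + i - 1) ≤ C * ρ ^ a / (1 - ρ) := by
        have h5 : ∀ i ∈ Finset.range k, C * ρ ^ (a + 1 + i - 1) = C * ρ ^ a * ρ ^ i := by
          intro i _
          rw [show a + 1 + i - 1 = a + i by omega, pow_add]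
          ring
        rw [Finset.sum_congr rfl h5, ← Finset.mul_sum, mul_div_assoc]
        have h6 : ∑ i ∈ Finset.range k, ρ ^ i ≤ 1 / (1 - ρ) := by
          rw [one_div]
          rw [← tsum_geometric_of_lt_one hρ0.le hρ1]
          exact (summable_geometric_of_lt_one hρ0.le hρ1).sum_le_tsum _ (fun i _ => by positivity)
        calc C * ρ ^ a * ∑ i ∈ Finset.range k, ρ ^ i ≤ C * ρ ^ a * (1 / (1 - ρ)) :=
              mul_le_mul_of_nonneg_left h6 (by positivity)
          _ = C * (ρ ^ a / (1 - ρ)) := by ring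
      exact h2.trans (h3.trans (by linarith))
    have h2 : Tendsto (fun k => ∑ i ∈ Finset.range k, P (a + 1 + i)) atTop atTop := by
      have h3 : ∀ k, ∑ i ∈ Finset.range k, P (a + 1 + i) =
          ∑ j ∈ Finset.range (a + 1 + k), P j - ∑ j ∈ Finset.range (a + 1), P j := by
        intro k
        rw [Finset.sum_range_add, add_sub_cancel_left]
      simp only [h3]
      apply tendsto_atTop_add_const_right
      exact hdiv.comp (tendsto_atTop_mono (fun k => Nat.le_add_left k (a + 1)) tendsto_id)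
    have h3 : Tendsto (fun k => Real.exp (-∑ i ∈ Finset.range k, P (a + 1 + i)) +
        C * ρ ^ a / (1 - ρ)) atTop (𝓝 (0 + C * ρ ^ a / (1 - ρ))) := by
      apply Tendsto.add_const
      exact Real.tendsto_exp_neg_atTop_nhds_zero.comp h2
    rw [zero_add] at h3
    exact ge_of_tendsto' h3 h1
  have hlim : Tendsto (fun b : ℕ => C * ρ ^ b / (1 - ρ)) atTop (𝓝 0) := by
    have h1 := ((tendsto_pow_atTop_nhds_zero_of_lt_one hρ0.le hρ1).const_mul C).div_const (1 - ρ)
    rwa [mul_zero, zero_div] at h1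
  have hzero : ∀ a : ℕ, perc {ω | ∀ i, a ≤ i → ¬ Q i (Fn (n i) ω)} = 0 := by
    intro a
    have h1 : perc.real {ω | ∀ i, a ≤ i → ¬ Q i (Fn (n i) ω)} ≤ 0 := by
      refine ge_of_tendsto hlim ?_
      filter_upwards [eventually_ge_atTop a] with b hb
      refine (measureReal_mono ?_ (measure_ne_top _ _)).trans (hE b)
      intro ω hω i hi
      exact hω i (hb.trans hi)
    have h2 := le_antisymm h1 measureReal_nonneg
    rwa [measureReal_eq_zero_iff] at h2
  have hall : ∀ᵐ ω ∂perc, ∀ a : ℕ, ¬ ∀ i, a ≤ i → ¬ Q i (Fn (n i) ω) := by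
    rw [ae_all_iff]
    intro a
    rw [ae_iff]
    simpa using hzero a
  filter_upwards [hall] with ω hω
  rw [frequently_atTop]
  intro a
  have h1 := hω a
  push Not at h1
  exact h1

end Pool.Agent.Q218.PM
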