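import Pool.Agent.Q218.PM.Clu
import Pool.Agent.H984R4.HN.Perc
import Pool.Agent.H342R3.Lim.Law

/-!
All boxes in one configuration of the edges of the square lattice.
-/

set_option autoImplicit false

namespace Pool.Agent.Q218.PM

open H974 H342P.Plain MeasureTheory
open H984H (Conf perc)

theorem mem_Fn {n : ℕ} {ω : Conf} {e : Edge} : e ∈ Fn n ω ↔ e ∈ edges n ∧ ω e = true := by
  unfold Fn
  rw [Finset.mem_filter]

theorem Fn_sub (n : ℕ) (ω : Conf) : Fn n ω ⊆ edges n := fun _ he => (mem_Fn.1 he).1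

theorem Fn_pi (n : ℕ) {T : Finset Edg} (hT : T ⊆ edges n) :
    {ω : Conf | Fn n ω = T} = Set.pi (↑(edges n) : Set Edg)
      (fun g => {b : Bool | b = true ↔ g ∈ T}) := by
  ext ω
  rw [Set.mem_pi]
  constructor
  · intro h g hg
    have h' : Fn n ω = T := h
    show ω g = true ↔ g ∈ T
    rw [← h', mem_Fn]
    exact ⟨fun h => ⟨hg, h⟩, fun h => h.2⟩
  · intro h
    show Fn n ω = T
    ext e
    rw [mem_Fn]
    constructor
    · rintro ⟨he, hω⟩
      exact (h e he).mp hω
    · intro he
      exact ⟨hT he, (h e (hT he)).mpr he⟩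

theorem Fn_eq_meas (n : ℕ) (T : Finset Edg) : MeasurableSet {ω : Conf | Fn n ω = T} := by
  by_cases hT : T ⊆ edges n
  · rw [Fn_pi n hT]
    exact MeasurableSet.pi (Finset.countable_toSet _) (fun _ _ => MeasurableSet.of_discrete)
  · have : {ω : Conf | Fn n ω = T} = ∅ := by
      ext ω
      simp only [Set.mem_empty_iff_false, iff_false]
      intro h
      have h' : Fn n ω = T := h
      exact hT (h' ▸ Fn_sub n ω)
    rw [this]
    exact MeasurableSet.empty

theorem Fn_prob (n : ℕ) {T : Finset Edg} (hT : T ⊆ edges n) :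
    perc.real {ω : Conf | Fn n ω = T} = (1/2 : ℝ) ^ (edges n).card := by
  classical
  unfold perc
  rw [measureReal_def, Fn_pi n hT]
  rw [Measure.infinitePi_pi _ (fun _ _ => MeasurableSet.of_discrete), ENNReal.toReal_prod]
  have h1 : ∀ e ∈ edges n, ((PMF.uniformOfFintype Bool).toMeasure
      {b : Bool | b = true ↔ e ∈ T}).toReal = 1/2 := by
    intro e _
    by_cases he : e ∈ T
    · have : {b : Bool | b = true ↔ e ∈ T} = {true} := by
        ext b; simp [he]
      rw [this, H984H.Perc_coin_eq]; simp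
    · have : {b : Bool | b = true ↔ e ∈ T} = {false} := by
        ext b; simp [he]
      rw [this, H984H.Perc_coin_eq]; simp
  rw [Finset.prod_congr rfl h1, Finset.prod_const]

theorem Fn_real (n : ℕ) (A : Finset Edge → Prop) : perc.real {ω | A (Fn n ω)} = prob n A := by
  classical
  have hU : {ω : Conf | A (Fn n ω)} = ⋃ T ∈ (edges n).powerset.filter A, {ω : Conf | Fn n ω = T} := by
    ext ω
    simp only [Set.mem_iUnion, Finset.mem_filter, Finset.mem_powerset]
    constructor
    · intro h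
      exact ⟨Fn n ω, ⟨Fn_sub n ω, h⟩, rfl⟩
    · rintro ⟨T, ⟨-, hQ⟩, hω⟩
      have hω' : Fn n ω = T := hω
      show A (Fn n ω)
      rw [hω']; exact hQ
  rw [hU, measureReal_biUnion_finset]
  · rw [Finset.sum_congr rfl (fun T hT => Fn_prob n
      (Finset.mem_powerset.mp (Finset.mem_filter.mp hT).1)), Finset.sum_const, nsmul_eq_mul]
    unfold prob
    rw [one_div, inv_pow]
    have h1 : ((edges n).powerset.filter A).card =
        (@Finset.filter _ A (fun a => Classical.propDecidable (A a)) (edges n).powerset).card := by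
      congr
    rw [h1]
    rfl
  · intro T _ T' _ hne
    rw [Function.onFun, Set.disjoint_left]
    intro ω h1 h2
    exact hne ((show Fn n ω = T from h1).symm.trans (show Fn n ω = T' from h2))
  · intro T _
    exact Fn_eq_meas n T

/-- Every function of the open edges of a box is measurable. -/
theorem Fn_meas {X : Type*} [MeasurableSpace X] (n : ℕ) (f : Finset Edge → X) :
    Measurable (fun ω => f (Fn n ω)) := by
  intro s _
  have h : (fun ω : Conf => f (Fn n ω)) ⁻¹' s =
      ⋃ T ∈ {T : Finset Edge | f T ∈ s}, {ω : Conf | Fn n ω = T} := by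
    ext ω
    simp only [Set.mem_preimage, Set.mem_iUnion, Set.mem_ofPred_eq, exists_prop]
    exact ⟨fun h => ⟨_, h, rfl⟩, fun ⟨T, h1, h2⟩ => by rw [h2]; exact h1⟩
  rw [h]
  exact MeasurableSet.biUnion (Set.to_countable _) (fun T _ => Fn_eq_meas n T)

theorem Fn_law {X : Type*} [MeasurableSpace X] (n : ℕ) (f : Finset Edge → X) :
    perc.map (fun ω => f (Fn n ω)) = (H342L.lawOf n f : Measure X) := by
  ext G hG
  rw [Measure.map_apply (Fn_meas n f) hG, H342L.lawOf_apply n f hG, ← Fn_real n,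
    ofReal_measureReal (measure_ne_top _ _)]
  rfl

theorem Fn_congr {n : ℕ} {ω ω' : Conf} (h : ∀ e ∈ edges n, ω e = ω' e) : Fn n ω = Fn n ω' := by
  ext e
  rw [mem_Fn, mem_Fn]
  constructor
  · rintro ⟨h1, h2⟩
    exact ⟨h1, by rw [← h e h1]; exact h2⟩
  · rintro ⟨h1, h2⟩
    exact ⟨h1, by rw [h e h1]; exact h2⟩

theorem Fn_off {m n : ℕ} {ω ω' : Conf} (h : ∀ e ∉ edges m, ω e = ω' e) :
    Off m (Fn n ω) (Fn n ω') := by
  intro e he
  rw [mem_Fn, mem_Fn, h e he]

theorem edges_mono {m n : ℕ} (h : m ≤ n) : edges m ⊆ edges n := by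
  intro e he
  rw [edges_eq] at he ⊢
  obtain ⟨x, y, t⟩ := e
  cases t
  · rw [mem_RE_false] at he ⊢
    have : (m : ℤ) ≤ n := by exact_mod_cast h
    omega
  · rw [mem_RE_true] at he ⊢
    have : (m : ℤ) ≤ n := by exact_mod_cast h
    omega

end Pool.Agent.Q218.PM
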