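import Pool.Agent.Q218.PM.Cov
import Pool.Agent.H342R3.Tig.Defs
import Pool.Agent.H342R3.Tig.EXI
import Pool.Agent.H984R3.Per.PerBig

/-!
The outer perimeter depends only on the edges of the cluster.
-/

set_option autoImplicit false

namespace Pool.Agent.Q218.PM

open H974 H342P.Plain H342L H342T H984P MeasureTheory

theorem clu_sub {F F' : Finset Edge} {v : ℤ × ℤ} (h : clusterEdges F v = clusterEdges F' v)
    {w : Vtx} (hw : Reach (↑F : Set Edg) v w) : Reach (↑F' : Set Edg) v w := by
  induction hw with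
  | refl => exact Reach.refl _ _
  | @tail b c hb hs ih =>
    obtain ⟨e, he, hc⟩ := adj_ends hs
    have he1 : fst e ∈ cluster F v := by
      rw [mem_cluster]
      rcases hc with ⟨h1, _⟩ | ⟨h1, _⟩
      · rw [h1]; exact hb
      · rw [h1]; exact hb.tail hs
    have he2 : e ∈ clusterEdges F' v := h ▸ (⟨Finset.mem_coe.1 he, he1⟩ : e ∈ clusterEdges F v)
    exact ih.tail (adj_of (Finset.mem_coe.2 he2.1) hc)

theorem clu_eq {F F' : Finset Edge} {v : ℤ × ℤ} (h : clusterEdges F v = clusterEdges F' v) :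
    cluster F v = cluster F' v := by
  ext w
  rw [mem_cluster, mem_cluster]
  exact ⟨clu_sub h, clu_sub h.symm⟩

theorem edge_of {F F' : Finset Edge} {v u : ℤ × ℤ} (h : clusterEdges F v = clusterEdges F' v)
    (hu : u ∈ cluster F v) {e : Edge} (he : fst e = u ∨ snd e = u) (heF : e ∈ F) : e ∈ F' := by
  have h1 : fst e ∈ cluster F v := by
    rcases he with he | he
    · rw [he]; exact hu
    · rw [mem_cluster] at hu ⊢
      exact hu.tail (adj_of (Finset.mem_coe.2 heF) (Or.inr ⟨rfl, he⟩))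
  have h2 : e ∈ clusterEdges F' v := h ▸ (⟨heF, h1⟩ : e ∈ clusterEdges F v)
  exact h2.1

theorem edge_iff {F F' : Finset Edge} {v u : ℤ × ℤ} (h : clusterEdges F v = clusterEdges F' v)
    (hu : u ∈ cluster F v) {e : Edge} (he : fst e = u ∨ snd e = u) : e ∈ F ↔ e ∈ F' :=
  ⟨edge_of h hu he, edge_of h.symm (clu_eq h ▸ hu) he⟩

theorem ae_end (σ : St) : fst (ae σ) = σ.1 ∨ snd (ae σ) = σ.1 := by
  obtain ⟨⟨x, y⟩, q⟩ := σ
  cases q <;> simp [fst, snd]

theorem orb_eq {F F' : Finset Edge} {v : ℤ × ℤ} (h : clusterEdges F v = clusterEdges F' v)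
    {σ : St} (hσ : σ.1 ∈ cluster F v) (s : ℕ) : orb (↑F) σ s = orb (↑F') σ s := by
  induction s with
  | zero => rfl
  | succ s ih =>
    rw [orb_succ, orb_succ, ← ih]
    have h1 : (orb (↑F) σ s).1 ∈ cluster F v := by
      rw [mem_cluster] at hσ ⊢
      exact hσ.trans (pb_reach _ _ _)
    have h2 := edge_iff h h1 (ae_end (orb (↑F) σ s))
    by_cases h3 : ae (orb (↑F) σ s) ∈ F
    · rw [nxt_open (Finset.mem_coe.2 h3), nxt_open (Finset.mem_coe.2 (h2.1 h3))]
    · rw [nxt_closed (fun h4 => h3 (Finset.mem_coe.1 h4)),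
        nxt_closed (fun h4 => h3 (h2.2 (Finset.mem_coe.1 h4)))]

theorem outer_eq {F F' : Finset Edge} {v : ℤ × ℤ} (h : clusterEdges F v = clusterEdges F' v)
    (f : ℤ × ℤ) : H342P.Plain.Outer F v f ↔ H342P.Plain.Outer F' v f := by
  unfold H342P.Plain.Outer
  rw [h]

theorem trace_of {n : ℕ} {F F' : Finset Edge} {v : ℤ × ℤ}
    (h : clusterEdges F v = clusterEdges F' v) {c : Curve} (hc : IsTrace n F v c) :
    IsTrace n F' v c := by
  obtain ⟨σ, N, hN, hσ, ho, hp, hmin, hpath⟩ := hc
  refine ⟨σ, N, hN, clu_eq h ▸ hσ, (outer_eq h _).1 ho, ?_, ?_, ?_⟩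
  · rw [← orb_eq h hσ]; exact hp
  · intro j h1 h2
    rw [← orb_eq h hσ]
    exact hmin j h1 h2
  · rw [hpath]
    congr 1
    funext j
    rw [orb_eq h hσ]

theorem perimeter_eq {F F' : Finset Edge} {v : ℤ × ℤ}
    (h : clusterEdges F v = clusterEdges F' v) : perimeter F v = perimeter F' v := by
  classical
  unfold perimeter
  have key : ∀ G : Finset Edge, (∑ e ∈ G, if e ∈ clusterEdges G v then
      ((if H342P.Plain.Outer G v (side₁ e) then 1 else 0) +
        (if H342P.Plain.Outer G v (side₂ e) then 1 else 0)) else 0 : ℕ) =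
      ∑ e ∈ G.filter (fun e => e ∈ clusterEdges G v),
      ((if H342P.Plain.Outer G v (side₁ e) then 1 else 0) +
        (if H342P.Plain.Outer G v (side₂ e) then 1 else 0)) := by
    intro G
    rw [Finset.sum_filter]
  have h1 : F.filter (fun e => e ∈ clusterEdges F v) =
      F'.filter (fun e => e ∈ clusterEdges F' v) := by
    ext e
    rw [Finset.mem_filter, Finset.mem_filter, h]
    constructor
    · rintro ⟨_, h2⟩
      exact ⟨h2.1, h2⟩
    · rintro ⟨_, h2⟩
      refine ⟨?_, h2⟩
      rw [← h] at h2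
      exact h2.1
  have h2 := key F
  have h3 := key F'
  simp only [outer_eq h] at h2
  rw [h1] at h2
  have h4 := h2.trans h3.symm
  simp only [outer_eq h]
  convert h4 using 1

/-- the rule for ties and for the starting point of the tracing path -/
noncomputable def sel0 (n : ℕ) (F : Finset Edge) : ℤ × ℤ :=
  Classical.epsilon (fun v => Largest n F v)

instance : Nonempty Curve := ⟨⟨0⟩⟩

/-- the tracing path of the chosen cluster -/
noncomputable def tr0 (n : ℕ) (F : Finset Edge) : Curve :=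
  Classical.epsilon (fun c => IsTrace n F (sel0 n F) c)

theorem sel0_largest (n : ℕ) (F : Finset Edge) (h : ∃ v, Largest n F v) : Largest n F (sel0 n F) :=
  Classical.epsilon_spec h

theorem sel0_of (n : ℕ) : OfLargest n (sel0 n) := by
  intro F F' _ _ h
  unfold sel0
  congr 1
  funext v
  exact propext (h v).1

end Pool.Agent.Q218.PM
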