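import Pool.Agent.Q218.PM.Cov
import Pool.Agent.Q218.ZO.Law

/-!
Zero-one law for functions of the largest clusters.
-/

set_option autoImplicit false

namespace Pool.Agent.Q218.PM

open H974 H342P.Plain MeasureTheory Filter Topology
open H984H (Conf perc)
open scoped ENNReal

theorem Fn_mono {m n : ℕ} (h : m ≤ n) (ω : Conf) : Fn m ω ⊆ Fn n ω := by
  intro e he
  rw [mem_Fn] at he ⊢
  exact ⟨edges_mono h he.1, he.2⟩

theorem box_mono {m n : ℕ} (h : m ≤ n) : box m ⊆ box n := by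
  intro v hv
  rw [mem_box] at hv ⊢
  have : (m : ℤ) ≤ n := by exact_mod_cast h
  omega

theorem arm_mono {m M n n' : ℕ} (h : n ≤ n') {ω : Conf} (hA : Arm m M (Fn n ω)) :
    Arm m M (Fn n' ω) := by
  obtain ⟨x, hx, y, hy, hr⟩ := hA
  exact ⟨x, hx, y, hy, hr.mono (Finset.coe_subset.2 (Fn_mono h ω))⟩

theorem lrg_mono {M n n' : ℕ} (h : n ≤ n') {ω : Conf} (hA : Lrg n M (Fn n ω)) :
    Lrg n' M (Fn n' ω) := by
  obtain ⟨x, hx, y, hy, hr, hd⟩ := hA
  exact ⟨x, box_mono h hx, y, box_mono h hy, hr.mono (Finset.coe_subset.2 (Fn_mono h ω)), hd⟩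

theorem tozero {A b a : ℝ} (ha : 0 < a) :
    Tendsto (fun M : ℕ => ENNReal.ofReal (A * (b / (M : ℝ)) ^ a)) atTop (𝓝 0) := by
  have h1 : Tendsto (fun M : ℕ => b / (M : ℝ)) atTop (𝓝 0) :=
    tendsto_const_nhds.div_atTop tendsto_natCast_atTop_atTop
  have h2 := (h1.rpow_const (Or.inr ha.le)).const_mul A
  rw [Real.zero_rpow ha.ne', mul_zero] at h2
  have h3 := ENNReal.tendsto_ofReal h2
  rwa [ENNReal.ofReal_zero] at h3

theorem no_arm : ∀ᵐ ω ∂perc, ∀ m : ℕ, ∃ M : ℕ, ∀ n, ¬ Arm (m + 1) M (Fn n ω) := by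
  obtain ⟨a, A, ha, hA, harm⟩ := arm_prob
  rw [ae_all_iff]
  intro m
  rw [ae_iff]
  have hle : ∀ M : ℕ, m + 1 ≤ M → perc {ω | ¬ ∃ M : ℕ, ∀ n, ¬ Arm (m + 1) M (Fn n ω)} ≤
      ENNReal.ofReal (A * (((m + 1 : ℕ) : ℝ) / M) ^ a) := by
    intro M hM
    have h1 : perc (⋃ n : ℕ, {ω | Arm (m + 1) M (Fn n ω)}) = ⨆ n, perc {ω | Arm (m + 1) M (Fn n ω)} :=
      Monotone.measure_iUnion (fun n n' h ω hω => arm_mono h hω)
    refine (measure_mono ?_).trans (h1.le.trans (iSup_le fun n => ?_))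
    · intro ω hω
      simp only [Set.mem_ofPred_eq, not_exists, not_forall, not_not] at hω
      obtain ⟨n, hn⟩ := hω M
      exact Set.mem_iUnion.2 ⟨n, hn⟩
    · have h2 := harm (m + 1) M n (by omega) hM
      rw [measureReal_def] at h2
      exact (ENNReal.le_ofReal_iff_toReal_le (measure_ne_top _ _) (by positivity)).2 h2
  refine le_antisymm (ge_of_tendsto (tozero (A := A) (b := ((m + 1 : ℕ) : ℝ)) ha) ?_) zero_le
  filter_upwards [eventually_ge_atTop (m + 1)] with M hM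
  exact hle M hM

theorem all_lrg : ∀ᵐ ω ∂perc, ∀ M : ℕ, ∃ n0 : ℕ, ∀ n, n0 ≤ n → Lrg n (M + 1) (Fn n ω) := by
  obtain ⟨A, hA, hl⟩ := lrg_prob
  rw [ae_all_iff]
  intro M
  rw [ae_iff]
  have hle : ∀ n : ℕ, M + 1 ≤ n →
      perc {ω | ¬ ∃ n0 : ℕ, ∀ n, n0 ≤ n → Lrg n (M + 1) (Fn n ω)} ≤
      ENNReal.ofReal (A * (((M + 1 : ℕ) : ℝ) / n) ^ (1 : ℝ)) := by
    intro n hn
    refine (measure_mono (t := {ω | ¬ Lrg n (M + 1) (Fn n ω)}) ?_).trans ?_
    · intro ω hω hcon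
      exact hω ⟨n, fun n' h => lrg_mono h hcon⟩
    · have h2 := hl (M + 1) n (by omega) hn
      rw [measureReal_def] at h2
      rw [Real.rpow_one]
      exact (ENNReal.le_ofReal_iff_toReal_le (measure_ne_top _ _) (by positivity)).2 h2
  refine le_antisymm (ge_of_tendsto (tozero (A := A) (b := ((M + 1 : ℕ) : ℝ)) one_pos) ?_) zero_le
  filter_upwards [eventually_ge_atTop (M + 1)] with n hn
  exact hle n hn

/-- **Finitely many edges do not matter**: almost surely, if finitely many edges are changed then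
the largest clusters of all but finitely many boxes are the same. -/
theorem same_ae : ∀ᵐ ω ∂perc, ∀ ω' : Conf, {e | ω e ≠ ω' e}.Finite →
    ∀ᶠ n in atTop, Same n (Fn n ω) (Fn n ω') := by
  filter_upwards [no_arm, all_lrg] with ω h1 h2 ω' hfin
  -- a small box
  have hm : ∃ m : ℕ, ∀ e, ω e ≠ ω' e → ∀ n, e ∈ edges n → e ∈ edges (m + 1) := by
    classical
    have h3 : ∀ e : Edg, ∃ k : ℕ, ∀ n, e ∈ edges n → e ∈ edges k := by
      intro e
      by_cases h : ∃ n, e ∈ edges n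
      · obtain ⟨k, hk⟩ := h
        exact ⟨k, fun _ _ => hk⟩
      · exact ⟨0, fun n hn => absurd ⟨n, hn⟩ h⟩
    choose k hk using h3
    refine ⟨hfin.toFinset.sup k, fun e he n hn => ?_⟩
    refine edges_mono ?_ (hk e n hn)
    have : k e ≤ hfin.toFinset.sup k := Finset.le_sup (f := k) (hfin.mem_toFinset.2 he)
    omega
  obtain ⟨m, hm⟩ := hm
  obtain ⟨M, hM⟩ := h1 m
  obtain ⟨n0, hn0⟩ := h2 M
  filter_upwards [eventually_ge_atTop n0] with n hn
  obtain ⟨c, hc, d, hd, hr, hbig⟩ := hn0 n hn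
  refine same_of (m := m + 1) (M := M) (Fn_sub n ω) (Fn_sub n ω') ?_ (hM n) hc hd hr ?_
  · intro e he
    rw [mem_Fn, mem_Fn]
    by_cases h3 : e ∈ edges n
    · have h4 : ω e = ω' e := by
        by_contra hcon
        exact he (hm e hcon n h3)
      rw [h4]
    · exact ⟨fun h => absurd h.1 h3, fun h => absurd h.1 h3⟩
  · refine lt_of_le_of_lt ?_ hbig
    have : (0 : ℤ) ≤ M := by positivity
    push_cast
    nlinarith

/-- **Zero-one law.** -/
theorem zero_one {α : Type*} [MeasurableSpace α] {Φ : ℕ → Finset Edge → α}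
    (hΦ : ∀ n, 0 < n → OfLargest n (Φ n)) {B : Set (ℕ → α)} (mB : MeasurableSet B)
    (hB : ∀ x y : ℕ → α, (∀ᶠ n in atTop, x n = y n) → (x ∈ B ↔ y ∈ B)) :
    perc {ω | (fun n => Φ n (Fn n ω)) ∈ B} = 0 ∨ perc {ω | (fun n => Φ n (Fn n ω)) ∈ B} = 1 := by
  have mm : Measurable (fun ω : Conf => (fun n => Φ n (Fn n ω))) := by
    rw [measurable_pi_iff]
    exact fun n => Fn_meas n (Φ n)
  apply Pool.Agent.Q218.ZO.zo_event (mm mB)
  filter_upwards [same_ae] with ω hω ω' hfin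
  apply hB
  filter_upwards [hω ω' hfin, eventually_gt_atTop 0] with n hn hn0
  exact hΦ n hn0 _ _ (Fn_sub n _) (Fn_sub n _) hn

end Pool.Agent.Q218.PM
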