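import Pool.Agent.Q218.PM.Io
import Pool.Agent.Q218.PM.Zero
import Pool.Agent.Q218.PM.Trace
import Pool.Agent.Q218.ZO.Lil
import Pool.Agent.Results.MP_6bd702_pr.PerimeterTail

/-!
Law of the iterated logarithm for the outer perimeter of the largest cluster.
-/

set_option autoImplicit false

namespace Pool.Agent.Q218.PM

open H974 H342P.Plain MeasureTheory Filter Topology
open H984H (Conf perc)
open Pool.Agent.Q218.ZO (LS const_of LS_meas)

/-- the tail of the perimeter -/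
theorem tail_in : ∃ c C : ℝ, 0 < c ∧ 0 < C ∧ ∀ n : ℕ, 1 ≤ n →
    (∀ x : ℝ, 0 ≤ x → prob n (fun F => ∃ v, Largest n F v ∧
        x * (n : ℝ) ^ (7/4 : ℝ) ≤ (perimeter F v : ℝ)) ≤ C * Real.exp (-(c * x ^ 8))) ∧
    (∀ x : ℝ, 1 ≤ x → x ≤ c * (n : ℝ) ^ (1/4 : ℝ) →
        Real.exp (-(C * x ^ 8)) ≤ prob n (fun F => ∀ v, Largest n F v →
          x * (n : ℝ) ^ (7/4 : ℝ) ≤ (perimeterEdges F v : ℝ))) := by
  obtain ⟨c, C, hc, hC, h, -⟩ := Pool.Agent.Results.MP_6bd702_pr.PerimeterTail.result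
  exact ⟨c, C, hc, hC, fun n hn => ⟨(h n hn).2.1, (h n hn).2.2⟩⟩

theorem ex_largest (n : ℕ) (F : Finset Edge) : ∃ v, Largest n F v :=
  Pool.Agent.Results.MP_6bd702_pr.PerimeterExponent.result.1 n F

theorem edges_le (F : Finset Edge) (v : ℤ × ℤ) : perimeterEdges F v ≤ perimeter F v :=
  Pool.Agent.Results.MP_6bd702_pr.PerimeterExponent.result.2.1 F v

/-- the rescaled perimeter of the largest cluster of the box of size `2 ^ k` -/
noncomputable def pk (sel : (n : ℕ) → Finset Edge → ℤ × ℤ) (k : ℕ) (F : Finset Edge) : ℝ :=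
  (perimeter F (sel (2 ^ k) F) : ℝ) / (((2 ^ k : ℕ) : ℝ)) ^ (7/4 : ℝ)

theorem pk_of {sel : (n : ℕ) → Finset Edge → ℤ × ℤ} (h1 : ∀ n, 0 < n → OfLargest n (sel n))
    (h2 : ∀ n F, 0 < n → F ⊆ edges n → Largest n F (sel n F)) (k : ℕ) :
    OfLargest (2 ^ k) (pk sel k) := by
  intro F F' hF hF' h
  have hk : 0 < 2 ^ k := by positivity
  unfold pk
  rw [← h1 _ hk F F' hF hF' h, perimeter_eq ((h (sel (2 ^ k) F)).2 (h2 _ F hk hF))]

theorem up {c C : ℝ} (hc : 0 < c) (hC : 0 < C) (h : ∀ n : ℕ, 1 ≤ n →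
    ∀ x : ℝ, 0 ≤ x → prob n (fun F => ∃ v, Largest n F v ∧
        x * (n : ℝ) ^ (7/4 : ℝ) ≤ (perimeter F v : ℝ)) ≤ C * Real.exp (-(c * x ^ 8)))
    {sel : (n : ℕ) → Finset Edge → ℤ × ℤ}
    (h2 : ∀ n F, 0 < n → F ⊆ edges n → Largest n F (sel n F)) :
    ∀ᵐ ω ∂perc, ∀ᶠ k : ℕ in atTop, pk sel k (Fn (2 ^ k) ω) ≤
      (2 / c) ^ (1/8 : ℝ) * (Real.log k) ^ (1/8 : ℝ) := by
  set B : ℝ := (2 / c) ^ (1/8 : ℝ) with hB
  have hB0 : 0 < B := by positivity
  have hB8 : B ^ 8 = 2 / c := by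
    rw [hB, ← Real.rpow_natCast, ← Real.rpow_mul (by positivity)]
    norm_num
  have hle : ∀ k : ℕ, 1 ≤ k → perc {ω | ¬ pk sel k (Fn (2 ^ k) ω) ≤
      B * (Real.log k) ^ (1/8 : ℝ)} ≤ ENNReal.ofReal (C * (1 / (k : ℝ) ^ 2)) := by
    intro k hk
    have hk0 : (0 : ℝ) < k := by exact_mod_cast hk
    have hk1 : (1 : ℝ) ≤ k := by exact_mod_cast hk
    have hl : 0 ≤ Real.log k := Real.log_nonneg hk1
    set x : ℝ := B * (Real.log k) ^ (1/8 : ℝ) with hx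
    have hx0 : 0 ≤ x := by positivity
    have hx8 : x ^ 8 = 2 / c * Real.log k := by
      rw [hx, mul_pow, hB8, ← Real.rpow_natCast, ← Real.rpow_mul hl]
      norm_num
    have h3 := h (2 ^ k) Nat.one_le_two_pow x hx0
    rw [← Fn_real] at h3
    have h4 : perc.real {ω | ¬ pk sel k (Fn (2 ^ k) ω) ≤ x} ≤ C * Real.exp (-(c * x ^ 8)) := by
      refine (measureReal_mono ?_ (measure_ne_top _ _)).trans h3
      intro ω hω
      have hω' : x < pk sel k (Fn (2 ^ k) ω) := not_le.1 hω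
      refine ⟨sel (2 ^ k) (Fn (2 ^ k) ω), h2 _ _ (by positivity) (Fn_sub _ _), ?_⟩
      unfold pk at hω'
      rw [lt_div_iff₀ (by positivity)] at hω'
      exact hω'.le
    have h5 : Real.exp (-(c * x ^ 8)) = 1 / (k : ℝ) ^ 2 := by
      rw [hx8, show -(c * (2 / c * Real.log k)) = -(2 * Real.log k) by field_simp]
      rw [Real.exp_neg, one_div, ← Real.rpow_natCast, Real.rpow_def_of_pos hk0]
      congr 2
      push_cast
      ring
    rw [h5, measureReal_def] at h4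
    exact (ENNReal.le_ofReal_iff_toReal_le (measure_ne_top _ _) (by positivity)).2 h4
  have hsum : ∑' k : ℕ, perc {ω | ¬ pk sel (k + 1) (Fn (2 ^ (k + 1)) ω) ≤
      B * (Real.log ((k + 1 : ℕ) : ℝ)) ^ (1/8 : ℝ)} ≠ ⊤ := by
    have h3 : Summable (fun k : ℕ => C * (1 / ((k + 1 : ℕ) : ℝ) ^ 2)) := by
      apply Summable.mul_left
      exact (summable_nat_add_iff (f := fun k : ℕ => 1 / (k : ℝ) ^ 2) 1).2
        (Real.summable_one_div_nat_pow.2 (by norm_num))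
    refine ne_top_of_le_ne_top ?_ (ENNReal.tsum_le_tsum fun k => hle (k + 1) (by omega))
    rw [← ENNReal.ofReal_tsum_of_nonneg (fun k => by positivity) h3]
    exact ENNReal.ofReal_ne_top
  filter_upwards [ae_eventually_notMem hsum] with ω hω
  rw [eventually_atTop] at hω ⊢
  obtain ⟨K, hK⟩ := hω
  refine ⟨K + 1, fun k hk => ?_⟩
  have h3 := hK (k - 1) (by omega)
  rw [show k - 1 + 1 = k by omega] at h3
  simpa using h3

theorem low {c C : ℝ} (hc : 0 < c) (hC : 0 < C) (h : ∀ n : ℕ, 1 ≤ n →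
    ∀ x : ℝ, 1 ≤ x → x ≤ c * (n : ℝ) ^ (1/4 : ℝ) →
        Real.exp (-(C * x ^ 8)) ≤ prob n (fun F => ∀ v, Largest n F v →
          x * (n : ℝ) ^ (7/4 : ℝ) ≤ (perimeterEdges F v : ℝ)))
    {sel : (n : ℕ) → Finset Edge → ℤ × ℤ} (h1 : ∀ n, 0 < n → OfLargest n (sel n))
    (h2 : ∀ n F, 0 < n → F ⊆ edges n → Largest n F (sel n F)) :
    ∀ᵐ ω ∂perc, ∃ᶠ k : ℕ in atTop,
      (1 / (2 * C)) ^ (1/8 : ℝ) * (Real.log k) ^ (1/8 : ℝ) ≤ pk sel k (Fn (2 ^ k) ω) := by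
  set b : ℝ := (1 / (2 * C)) ^ (1/8 : ℝ) with hb
  have hb0 : 0 < b := by positivity
  have hb8 : b ^ 8 = 1 / (2 * C) := by
    rw [hb, ← Real.rpow_natCast, ← Real.rpow_mul (by positivity)]
    norm_num
  have hsq : Tendsto (fun j : ℕ => j ^ 2) atTop atTop := tendsto_pow_atTop (by norm_num)
  have hlogsq : Tendsto (fun j : ℕ => Real.log ((j ^ 2 : ℕ) : ℝ)) atTop atTop :=
    Real.tendsto_log_atTop.comp (tendsto_natCast_atTop_atTop.comp hsq)
  have hpos : ∀ᶠ j : ℕ in atTop, 1 ≤ b * (Real.log ((j ^ 2 : ℕ) : ℝ)) ^ (1/8 : ℝ) := by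
    have h3 := ((tendsto_rpow_atTop (show (0 : ℝ) < 1/8 by norm_num)).comp hlogsq).const_mul_atTop hb0
    exact h3.eventually_ge_atTop 1
  have hexp : ∀ᶠ j : ℕ in atTop, b * ((j ^ 2 : ℕ) : ℝ) ≤ c * ((2 : ℝ) ^ (1/4 : ℝ)) ^ (j ^ 2) := by
    have hr : (1 : ℝ) < (2 : ℝ) ^ (1/4 : ℝ) := Real.one_lt_rpow (by norm_num) (by norm_num)
    have h3 := (tendsto_pow_const_div_const_pow_of_one_lt 1 hr).comp hsq
    have h4 := h3.eventually (gt_mem_nhds (show 0 < c / b by positivity))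
    filter_upwards [h4] with j hj
    simp only [Function.comp_apply, pow_one] at hj
    rw [div_lt_div_iff₀ (by positivity) hb0] at hj
    linarith
  have key := io (Q := fun j F => b * (Real.log ((j ^ 2 : ℕ) : ℝ)) ^ (1/8 : ℝ) ≤
      pk sel (j ^ 2) F) (n := fun j => 2 ^ (j ^ 2)) (fun j => Nat.one_le_two_pow)
    (fun i j hij => Nat.pow_le_pow_right (by norm_num) (Nat.pow_le_pow_left hij 2))
    (fun j => ?_) (fun j F F' hF hF' hs => ?_) ?_
  · filter_upwards [key] with ω hω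
    exact hsq.frequently hω
  · have e : ((2 ^ ((j + 1) ^ 2) : ℕ) : ℝ) = 2 ^ (j ^ 2) * 2 ^ (2 * j + 1) := by
      push_cast
      rw [← pow_add]
      congr 1
      ring
    rw [e]
    push_cast
    rw [div_mul_cancel_left₀ (by positivity), one_div_pow, ← one_div]
    apply one_div_le_one_div_of_le (by positivity)
    exact pow_le_pow_right₀ (by norm_num) (by omega)
  · show _ ≤ _ ↔ _ ≤ _
    rw [pk_of h1 h2 (j ^ 2) F F' hF hF' hs]
  · rw [← not_summable_iff_tendsto_nat_atTop_of_nonneg (fun j => measureReal_nonneg)]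
    intro hsum
    apply Real.not_summable_one_div_natCast
    refine Summable.of_norm_bounded_eventually_nat hsum ?_
    filter_upwards [hpos, hexp, eventually_ge_atTop 1] with j g1 g2 g3
    have hj0 : (0 : ℝ) < j := by exact_mod_cast g3
    have hj1 : (1 : ℝ) ≤ j := by exact_mod_cast g3
    have hjq : (1 : ℝ) ≤ ((j ^ 2 : ℕ) : ℝ) := by
      push_cast
      nlinarith
    have hl : 0 ≤ Real.log ((j ^ 2 : ℕ) : ℝ) := Real.log_nonneg hjq
    rw [Real.norm_of_nonneg (by positivity)]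
    set x : ℝ := b * (Real.log ((j ^ 2 : ℕ) : ℝ)) ^ (1/8 : ℝ) with hx
    have hx8 : x ^ 8 = 1 / (2 * C) * (2 * Real.log j) := by
      rw [hx, mul_pow, hb8, ← Real.rpow_natCast, ← Real.rpow_mul hl]
      norm_num
    have h4 : x ≤ c * (((2 ^ (j ^ 2) : ℕ) : ℝ)) ^ (1/4 : ℝ) := by
      have e1 : (((2 ^ (j ^ 2) : ℕ) : ℝ)) ^ (1/4 : ℝ) = ((2 : ℝ) ^ (1/4 : ℝ)) ^ (j ^ 2) := by
        push_cast
        rw [← Real.rpow_natCast 2, ← Real.rpow_natCast ((2 : ℝ) ^ (1/4 : ℝ)),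
          ← Real.rpow_mul (by norm_num), ← Real.rpow_mul (by norm_num), mul_comm]
      rw [e1]
      refine le_trans ?_ g2
      apply mul_le_mul_of_nonneg_left _ hb0.le
      have h5 : Real.log ((j ^ 2 : ℕ) : ℝ) ≤ ((j ^ 2 : ℕ) : ℝ) := by
        have := Real.log_le_sub_one_of_pos (show (0 : ℝ) < ((j ^ 2 : ℕ) : ℝ) by linarith)
        linarith
      calc (Real.log ((j ^ 2 : ℕ) : ℝ)) ^ (1/8 : ℝ) ≤ (((j ^ 2 : ℕ) : ℝ)) ^ (1/8 : ℝ) :=
            Real.rpow_le_rpow hl h5 (by norm_num)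
        _ ≤ (((j ^ 2 : ℕ) : ℝ)) ^ (1 : ℝ) :=
            Real.rpow_le_rpow_of_exponent_le hjq (by norm_num)
        _ = _ := Real.rpow_one _
    have h5 := h (2 ^ (j ^ 2)) Nat.one_le_two_pow x g1 h4
    rw [← Fn_real] at h5
    have h6 : Real.exp (-(C * x ^ 8)) = 1 / (j : ℝ) := by
      rw [hx8, show -(C * (1 / (2 * C) * (2 * Real.log j))) = -(Real.log j) by field_simp,
        Real.exp_neg, Real.exp_log hj0, one_div]
    rw [h6] at h5
    refine h5.trans (measureReal_mono ?_ (measure_ne_top _ _))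
    intro ω hω
    have h7 := hω (sel (2 ^ (j ^ 2)) (Fn (2 ^ (j ^ 2)) ω)) (h2 _ _ (by positivity) (Fn_sub _ _))
    show x ≤ pk sel (j ^ 2) (Fn (2 ^ (j ^ 2)) ω)
    unfold pk
    rw [le_div_iff₀ (by positivity)]
    refine h7.trans ?_
    exact_mod_cast edges_le _ _

/-- **Law of the iterated logarithm** with a non-random constant. -/
theorem lil : ∃ a A : ℝ, 0 < a ∧ ∀ sel : (n : ℕ) → Finset Edge → ℤ × ℤ,
    (∀ n, 0 < n → OfLargest n (sel n)) →
    (∀ n F, 0 < n → F ⊆ edges n → Largest n F (sel n F)) →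
    ∃ K : ℝ, a ≤ K ∧ K ≤ A ∧ ∀ᵐ ω ∂perc, ∀ ε : ℝ, 0 < ε →
      (∀ᶠ k : ℕ in atTop, pk sel k (Fn (2 ^ k) ω) ≤ (K + ε) * (Real.log k) ^ (1/8 : ℝ)) ∧
      ∃ᶠ k : ℕ in atTop, (K - ε) * (Real.log k) ^ (1/8 : ℝ) ≤ pk sel k (Fn (2 ^ k) ω) := by
  obtain ⟨c, C, hc, hC, h⟩ := tail_in
  refine ⟨(1 / (2 * C)) ^ (1/8 : ℝ), (2 / c) ^ (1/8 : ℝ), by positivity, ?_⟩
  intro sel h1 h2
  have hφ : ∀ᶠ k : ℕ in atTop, 0 < (Real.log (k : ℝ)) ^ (1/8 : ℝ) := by
    filter_upwards [eventually_ge_atTop 2] with k hk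
    have : (1 : ℝ) < k := by exact_mod_cast (by omega : 1 < k)
    have := Real.log_pos this
    positivity
  refine const_of (φ := fun k : ℕ => (Real.log (k : ℝ)) ^ (1/8 : ℝ))
    (U := fun ω k => pk sel k (Fn (2 ^ k) ω)) hφ ?_ (fun k => Fn_meas (2 ^ k) (pk sel k))
    (up hc hC (fun n hn => (h n hn).1) h2) (low hc hC (fun n hn => (h n hn).2) h1 h2)
  intro q
  set Φ : ℕ → Finset Edge → ℝ := fun n F => (perimeter F (sel n F) : ℝ) / (n : ℝ) ^ (7/4 : ℝ) with hΦ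
  have hΦo : ∀ n, 0 < n → OfLargest n (Φ n) := by
    intro n hn F F' hF hF' hs
    show (perimeter F (sel n F) : ℝ) / _ = (perimeter F' (sel n F') : ℝ) / _
    rw [← h1 n hn F F' hF hF' hs, perimeter_eq ((hs (sel n F)).2 (h2 n F hn hF))]
  have h3 := zero_one hΦo (B := {x : ℕ → ℝ |
    LS (fun k : ℕ => (Real.log (k : ℝ)) ^ (1/8 : ℝ)) (fun k => x (2 ^ k)) q}) ?_ ?_
  · exact h3
  · unfold LS
    simp only [eventually_atTop, Set.ofPred_forall]
    refine MeasurableSet.iInter fun k => ?_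
    simp only [Set.ofPred_exists, Set.ofPred_forall]
    refine MeasurableSet.iUnion fun N => MeasurableSet.iInter fun n =>
      MeasurableSet.iInter fun _ => ?_
    exact measurableSet_le (measurable_pi_apply _) measurable_const
  · intro x y hxy
    have h4 : ∀ᶠ k : ℕ in atTop, x (2 ^ k) = y (2 ^ k) :=
      (tendsto_pow_atTop_atTop_of_one_lt (r := 2) (by norm_num)).eventually hxy
    show LS _ _ _ ↔ LS _ _ _
    unfold LS
    refine forall_congr' fun k => eventually_congr ?_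
    filter_upwards [h4] with n hn
    rw [hn]

end Pool.Agent.Q218.PM
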