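import Pool.Agent.Q218.PM.Law
import Pool.Agent.H342R2.Per.Big
import Pool.Agent.H12R2.Sep.Win2
import Pool.Agent.H12R2.Sep.WinHalf
import Pool.Agent.Q218.DC.Mix

/-!
Probability that the largest clusters change when the edges of a small box at the corner are
resampled.
-/

set_option autoImplicit false

namespace Pool.Agent.Q218.PM

open H974 H342P.Plain MeasureTheory
open H984H (Conf perc)

/-- some cluster is large -/
def Lrg (n M : ℕ) (F : Finset Edge) : Prop :=
  ∃ c ∈ box n, ∃ d ∈ box n, Reach (↑F : Set Edg) c d ∧ 2 * (M : ℤ) ^ 2 < sqDist c d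

theorem arm_prob : ∃ a A : ℝ, 0 < a ∧ 0 < A ∧ ∀ m M n : ℕ, 1 ≤ m → m ≤ M →
    perc.real {ω | Arm m M (Fn n ω)} ≤ A * ((m : ℝ) / M) ^ a := by
  obtain ⟨κ, hκ, hW⟩ := H12S.win_half
  obtain ⟨C, c, hC, hc, harm⟩ := H12S.win_arm_of
    (fun h _ h1 h2 => fun c1 c2 S => H12S.win_blk h h1 h2 c1 c2 S) κ hκ
  refine ⟨c, C, hc, hC, ?_⟩
  intro m M n hm hM
  have h1 : perc.real {ω | Arm m M (Fn n ω)} ≤
      perc.real {ω | H12S.Crs 0 0 m M (↑(Fn n ω) : Set Edg)} := by
    apply measureReal_mono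
    · rintro ω ⟨x, hx, y, hy, hr⟩
      rw [mem_box] at hx
      refine ⟨x, y, ?_, ?_, hr⟩
      · unfold inR; omega
      · have hy0 : 0 ≤ y.1 ∧ 0 ≤ y.2 := by
          rcases Relation.ReflTransGen.cases_tail hr with h | ⟨z, -, hz⟩
          · rw [h]
            exact ⟨hx.1.1, hx.2.1⟩
          · have := (adj_box (Fn_sub n ω) hz).2
            rw [mem_box] at this
            exact ⟨this.1.1, this.2.1⟩
        rw [mem_box] at hy
        omega
    · exact measure_ne_top _ _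
  refine h1.trans ?_
  rw [Fn_real n (fun F => H12S.Crs 0 0 m M (↑F : Set Edg)), prob_eq]
  exact (harm (1/2) M (hW M) m M hm hM le_rfl 0 0 (RE 0 n 0 n)).1

theorem lrg_prob : ∃ A : ℝ, 0 < A ∧ ∀ M n : ℕ, 1 ≤ M → M ≤ n →
    perc.real {ω | ¬ Lrg n M (Fn n ω)} ≤ A * ((M : ℝ) / n) := by
  refine ⟨8, by norm_num, ?_⟩
  intro M n hM hMn
  have hM0 : (0 : ℝ) < M := by exact_mod_cast hM
  have hn0 : (0 : ℝ) < n := by exact_mod_cast hM.trans hMn
  by_cases hb : n ≤ 8 * M
  · calc perc.real {ω | ¬ Lrg n M (Fn n ω)} ≤ 1 := measureReal_le_one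
      _ ≤ 8 * ((M : ℝ) / n) := by
        rw [← mul_div_assoc, le_div_iff₀ hn0, one_mul]
        exact_mod_cast hb
  · have hb' : 8 * M < n := not_le.1 hb
    set L : ℕ := 3 * M with hL
    set K : ℕ := (n + 1) / (L + 1) with hK
    have h1 : perc.real {ω | ¬ Lrg n M (Fn n ω)} ≤
        perc.real {ω | ¬ H342P.Big n M (↑(Fn n ω) : Set Edg)} := by
      apply measureReal_mono
      · intro ω hω hcon
        apply hω
        obtain ⟨c, d, hc, hd, hr, h8⟩ := hcon
        refine ⟨c, mem_box.2 hc, d, mem_box.2 hd, hr, ?_⟩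
        have : (1 : ℤ) ≤ M := by exact_mod_cast hM
        unfold sqDist
        unfold H342P.dsq at h8
        nlinarith
      · exact measure_ne_top _ _
    refine h1.trans ?_
    rw [Fn_real n (fun F => ¬ H342P.Big n M (↑F : Set Edg)), prob_eq]
    have h2 := H342P.pr_not_big (n := n) (L := L) (K := K) (m := (M : ℤ)) (by omega) (by omega)
      (by rw [hL]; push_cast; omega) (Nat.div_mul_le_self _ _) (by omega)
    refine h2.trans ?_
    -- `K ≥ n / (8 M)`
    have h3 : (n : ℝ) / (8 * M) ≤ K := by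
      have h4 : n + 1 < (K + 1) * (L + 1) := by
        have := Nat.lt_div_mul_add (a := n + 1) (b := L + 1) (by omega)
        rw [hK, add_mul, one_mul]
        exact this
      have hK1 : 1 ≤ K := by
        rw [hK, Nat.one_le_div_iff (by omega)]
        omega
      rw [div_le_iff₀ (by positivity)]
      have h5 : n ≤ K * (8 * M) := by
        have h6 : (K + 1) * (L + 1) ≤ (2 * K) * (4 * M) := by
          apply Nat.mul_le_mul
          · omega
          · omega
        have h7 : (2 * K) * (4 * M) = K * (8 * M) := by ring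
        omega
      exact_mod_cast h5
    have h8 : ((1 : ℝ) / 2) ^ K ≤ 1 / (K : ℝ) := by
      have h9 : (K : ℝ) < 2 ^ K := by exact_mod_cast Nat.lt_two_pow_self
      have hK0 : (0 : ℝ) < K := lt_of_lt_of_le (by positivity) h3
      rw [one_div, inv_pow, one_div]
      exact inv_anti₀ hK0 h9.le
    refine h8.trans ?_
    have hK0 : (0 : ℝ) < K := lt_of_lt_of_le (by positivity) h3
    rw [div_le_iff₀ (by positivity)] at h3
    rw [div_le_iff₀ hK0, ← mul_div_assoc, div_mul_eq_mul_div, le_div_iff₀ hn0]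
    nlinarith

/-- **The largest clusters do not depend on the edges of a small box at the corner.** -/
theorem change_prob : ∃ C c : ℝ, 0 < C ∧ 0 < c ∧ ∀ m n : ℕ, 1 ≤ m → m ≤ n → ∃ B : Set Conf,
    perc.real B ≤ C * ((m : ℝ) / n) ^ c ∧ ∀ ω ω' : Conf, (∀ e ∉ edges m, ω e = ω' e) → ω ∉ B →
      Same n (Fn n ω) (Fn n ω') := by
  obtain ⟨a, A, ha, hA, harm⟩ := arm_prob
  obtain ⟨A', hA', hlrg⟩ := lrg_prob
  refine ⟨A * 2 ^ a + A', min (a / 2) (1 / 2), by positivity, by positivity, ?_⟩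
  intro m n hm hmn
  set M : ℕ := Nat.sqrt (m * n) with hM
  have hmM : m ≤ M := by
    rw [hM, Nat.le_sqrt]
    exact Nat.mul_le_mul_left m hmn
  have hMn : M ≤ n := by
    have h1 : M ≤ Nat.sqrt (n * n) := Nat.sqrt_le_sqrt (Nat.mul_le_mul_right n hmn)
    rwa [Nat.sqrt_eq] at h1
  have hm0 : (0 : ℝ) < m := by exact_mod_cast hm
  have hn0 : (0 : ℝ) < n := by exact_mod_cast hm.trans hmn
  have hM0 : (0 : ℝ) < M := by exact_mod_cast hm.trans hmM
  set x : ℝ := (m : ℝ) / n with hx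
  have hx0 : 0 < x := by positivity
  have hx1 : x ≤ 1 := by
    rw [hx, div_le_one hn0]
    exact_mod_cast hmn
  refine ⟨{ω | Arm m M (Fn n ω)} ∪ {ω | ¬ Lrg n M (Fn n ω)}, ?_, ?_⟩
  · have h1 := harm m M n hm hmM
    have h2 := hlrg M n (hm.trans hmM) hMn
    -- `M ^ 2 ≤ m n < (M + 1) ^ 2 ≤ 4 M ^ 2`
    have h3 : (M : ℝ) ^ 2 ≤ m * n := by
      have : M * M ≤ m * n := Nat.sqrt_le _
      have h4 : ((M * M : ℕ) : ℝ) ≤ ((m * n : ℕ) : ℝ) := by exact_mod_cast this
      push_cast at h4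
      nlinarith
    have h4 : (m : ℝ) * n ≤ 4 * (M : ℝ) ^ 2 := by
      have h5 : m * n < (M + 1) * (M + 1) := by
        have h50 := Nat.lt_succ_sqrt (m * n)
        exact h50
      have h6 : ((m * n : ℕ) : ℝ) < (((M + 1) * (M + 1) : ℕ) : ℝ) := by exact_mod_cast h5
      push_cast at h6
      have h7 : (1 : ℝ) ≤ M := by exact_mod_cast hm.trans hmM
      nlinarith
    -- ratios
    have h5 : (m : ℝ) / M ≤ 2 * x ^ (1/2 : ℝ) := by
      rw [← Real.sqrt_eq_rpow, hx, Real.sqrt_div hm0.le, div_le_iff₀ hM0]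
      have h6 : Real.sqrt m * Real.sqrt n ≤ 2 * M := by
        rw [← Real.sqrt_mul hm0.le]
        apply Real.sqrt_le_iff.2
        exact ⟨by positivity, by nlinarith⟩
      have h7 : Real.sqrt m * Real.sqrt m = m := Real.mul_self_sqrt hm0.le
      have h8 : 0 < Real.sqrt n := Real.sqrt_pos.2 hn0
      have h9 : 0 < Real.sqrt m := Real.sqrt_pos.2 hm0
      have h10 : (m : ℝ) * Real.sqrt n ≤ 2 * Real.sqrt m * M := by nlinarith
      calc (m : ℝ) = m * Real.sqrt n / Real.sqrt n := by field_simp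
        _ ≤ 2 * Real.sqrt m * M / Real.sqrt n := div_le_div_of_nonneg_right h10 h8.le
        _ = 2 * (Real.sqrt m / Real.sqrt n) * M := by ring
    have h6 : (M : ℝ) / n ≤ x ^ (1/2 : ℝ) := by
      rw [← Real.sqrt_eq_rpow, hx]
      apply Real.le_sqrt_of_sq_le
      rw [div_pow, div_le_div_iff₀ (by positivity) hn0]
      nlinarith
    have hxa : x ^ (a / 2) ≤ x ^ (min (a / 2) (1 / 2)) :=
      Real.rpow_le_rpow_of_exponent_ge hx0 hx1 (min_le_left _ _)
    have hxb : x ^ (1 / 2 : ℝ) ≤ x ^ (min (a / 2) (1 / 2)) :=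
      Real.rpow_le_rpow_of_exponent_ge hx0 hx1 (min_le_right _ _)
    have h7 : ((m : ℝ) / M) ^ a ≤ 2 ^ a * x ^ (a / 2) := by
      calc ((m : ℝ) / M) ^ a ≤ (2 * x ^ (1/2 : ℝ)) ^ a :=
            Real.rpow_le_rpow (by positivity) h5 ha.le
        _ = 2 ^ a * x ^ (a / 2) := by
            rw [Real.mul_rpow (by norm_num) (by positivity), ← Real.rpow_mul hx0.le]
            congr 2
            ring
    calc perc.real ({ω | Arm m M (Fn n ω)} ∪ {ω | ¬ Lrg n M (Fn n ω)})
        ≤ perc.real {ω | Arm m M (Fn n ω)} + perc.real {ω | ¬ Lrg n M (Fn n ω)} :=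
          measureReal_union_le _ _
      _ ≤ A * (2 ^ a * x ^ (min (a / 2) (1 / 2))) + A' * x ^ (min (a / 2) (1 / 2)) := by
          apply add_le_add
          · refine h1.trans (mul_le_mul_of_nonneg_left (h7.trans ?_) hA.le)
            exact mul_le_mul_of_nonneg_left hxa (by positivity)
          · exact h2.trans (mul_le_mul_of_nonneg_left (h6.trans hxb) hA'.le)
      _ = (A * 2 ^ a + A') * x ^ (min (a / 2) (1 / 2)) := by ring
  · intro ω ω' h hω
    rw [Set.mem_union, not_or] at hω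
    obtain ⟨h1, h2⟩ := hω
    simp only [Set.mem_ofPred_eq, not_not] at h1 h2
    obtain ⟨c, hc, d, hd, hr, hbig⟩ := h2
    exact same_of (Fn_sub n ω) (Fn_sub n ω') (Fn_off h) h1 hc hd hr hbig

end Pool.Agent.Q218.PM
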